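import Mathlib

namespace Pool.Agent.Hhelper86.HFact

open Filter Topology

lemma pow_dom (C a b : ℝ) (h : a < b) : ∀ᶠ v : ℕ in atTop, C * (v : ℝ) ^ a ≤ (v : ℝ) ^ b := by
  have h1 : Tendsto (fun v : ℕ => (v : ℝ) ^ (b - a)) atTop atTop :=
    (tendsto_rpow_atTop (by linarith)).comp tendsto_natCast_atTop_atTop
  filter_upwards [h1.eventually_ge_atTop C, eventually_gt_atTop 0] with v hv hpos
  have hv0 : (0 : ℝ) < v := by exact_mod_cast hpos
  have h2 : (v : ℝ) ^ b = (v : ℝ) ^ (b - a) * (v : ℝ) ^ a := by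
    rw [← Real.rpow_add hv0]; ring_nf
  rw [h2]
  gcongr

lemma log_dom (C a : ℝ) (h : 0 < a) : ∀ᶠ v : ℕ in atTop, C * Real.log v ≤ (v : ℝ) ^ a := by
  have h1 := (isLittleO_log_rpow_atTop h).bound (show 0 < 1 / (|C| + 1) by positivity)
  have h2 := tendsto_natCast_atTop_atTop (R := ℝ) |>.eventually h1
  filter_upwards [h2, eventually_ge_atTop 1] with v hv hpos
  have hv0 : (1 : ℝ) ≤ v := by exact_mod_cast hpos
  rw [Real.norm_of_nonneg (Real.log_nonneg hv0), Real.norm_of_nonneg (by positivity)] at hv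
  have h3 : (|C| + 1) * Real.log v ≤ (v : ℝ) ^ a := by
    have h4 : (|C| + 1) * Real.log v ≤ (|C| + 1) * (1 / (|C| + 1) * (v : ℝ) ^ a) := by gcongr
    have h5 : (|C| + 1) * (1 / (|C| + 1) * (v : ℝ) ^ a) = (v : ℝ) ^ a := by
      field_simp
    linarith
  have h6 : C * Real.log v ≤ (|C| + 1) * Real.log v := by
    apply mul_le_mul_of_nonneg_right _ (Real.log_nonneg hv0)
    linarith [le_abs_self C]
  linarith

/-- `Nat.log 2 v + 1` is at most `3 log v + 1` -/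
lemma natlog_le (v : ℕ) (hv : 1 ≤ v) : ((Nat.log 2 v : ℕ) : ℝ) + 1 ≤ 2 * Real.log v + 1 := by
  have h1 : (2 : ℝ) ^ (Nat.log 2 v) ≤ v := by exact_mod_cast Nat.pow_log_le_self 2 (by omega)
  have h2 := Real.log_le_log (by positivity) h1
  rw [Real.log_pow] at h2
  have h3 : (1 : ℝ) / 2 ≤ Real.log 2 := by linarith [Real.log_two_gt_d9]
  have h4 : (0 : ℝ) ≤ (Nat.log 2 v : ℕ) := Nat.cast_nonneg _
  nlinarith

lemma natlog_dom (C a : ℝ) (h : 0 < a) :
    ∀ᶠ v : ℕ in atTop, C * (((Nat.log 2 v : ℕ) : ℝ) + 1) ≤ (v : ℝ) ^ a := by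
  filter_upwards [log_dom (4 * |C|) a h, pow_dom (2 * |C|) 0 a h, eventually_ge_atTop 1] with v h1 h2 hv
  have h3 := natlog_le v hv
  have hC := le_abs_self C
  have hC0 := abs_nonneg C
  rw [Real.rpow_zero, mul_one] at h2
  have h0 : (0 : ℝ) ≤ ((Nat.log 2 v : ℕ) : ℝ) + 1 := by positivity
  calc C * (((Nat.log 2 v : ℕ) : ℝ) + 1) ≤ |C| * (((Nat.log 2 v : ℕ) : ℝ) + 1) := by gcongr
    _ ≤ |C| * (2 * Real.log v + 1) := by gcongr
    _ ≤ (v : ℝ) ^ a := by nlinarith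

/-- lower bound for floors of powers -/
lemma floor_ge (a : ℝ) (h : 0 < a) : ∀ᶠ v : ℕ in atTop, (v : ℝ) ^ a / 2 ≤ (⌊(v : ℝ) ^ a⌋₊ : ℝ) := by
  filter_upwards [pow_dom 2 0 a h] with v hv
  rw [Real.rpow_zero, mul_one] at hv
  have := Nat.sub_one_lt_floor ((v : ℝ) ^ a)
  linarith

lemma tendsto_floor_rpow (a : ℝ) (h : 0 < a) :
    Tendsto (fun v : ℕ => ⌊(v : ℝ) ^ a⌋₊) atTop atTop :=
  tendsto_nat_floor_atTop.comp ((tendsto_rpow_atTop h).comp tendsto_natCast_atTop_atTop)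

/-- the number of primes up to `y` is at least `y^(1-η)` -/
lemma pi_lower (η : ℝ) (hη : 0 < η) :
    ∀ᶠ y : ℕ in atTop, (y : ℝ) ^ (1 - η) ≤ (Nat.primeCounting y : ℝ) := by
  filter_upwards [log_dom 20 1 one_pos, log_dom 2 η hη, eventually_ge_atTop 100] with y h1 h2 hy
  have hy0 : (100 : ℝ) ≤ y := by exact_mod_cast hy
  have hypos : (0 : ℝ) < y := by linarith
  have hlog : 0 < Real.log y := Real.log_pos (by linarith)
  have h3 := Chebyshev.pi_ge y
  refine le_trans ?_ h3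
  rw [le_div_iff₀ hlog]
  rw [Real.rpow_one] at h1
  have h4 : Real.log ((y : ℝ) + 1) ≤ 2 * Real.log y := by
    rw [show 2 * Real.log (y : ℝ) = Real.log ((y : ℝ) ^ 2) by rw [Real.log_pow]; norm_num]
    apply Real.log_le_log (by positivity)
    nlinarith
  have h5 : (y : ℝ) ^ (1 - η) * Real.log y ≤ y / 2 := by
    have h6 : (y : ℝ) ^ (1 - η) * (2 * Real.log y) ≤ (y : ℝ) ^ (1 - η) * (y : ℝ) ^ η := by gcongr
    rw [← Real.rpow_add hypos] at h6
    have h7 : (1 - η + η : ℝ) = 1 := by ring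
    rw [h7, Real.rpow_one] at h6
    linarith
  have h8 := Real.log_two_gt_d9
  nlinarith

end Pool.Agent.Hhelper86.HFact
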