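import Mathlib

/-!
Residue classes modulo powers of two met by sets of integers: basic calculus.
-/

namespace Pool.Agent.Hhelper86.HFact

open Set

/-- number of residue classes modulo `2^k` met by the set `S` of integers -/
noncomputable def cl (S : Set ℤ) (k : ℕ) : ℕ :=
  ((fun x : ℤ => (x : ZMod (2 ^ k))) '' S).ncard

/-- the set `{p a + q b : a, b ∈ A}` -/
def lin (A : Set ℤ) (p q : ℤ) : Set ℤ := {x | ∃ a ∈ A, ∃ b ∈ A, x = p * a + q * b}

/-- a term: a power of two times a product of at most `D` elements of `B` -/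
def IsTerm (B : Set ℕ) (D : ℕ) (y : ℕ) : Prop :=
  ∃ e : ℕ, ∃ m : List ℕ, m.length ≤ D ∧ (∀ b ∈ m, b ∈ B) ∧ y = 2 ^ e * m.prod

/-- sums of at most `N` terms -/
def PP (B : Set ℕ) (N D : ℕ) : Set ℤ :=
  {x | ∃ l : List ℕ, l.length ≤ N ∧ (∀ y ∈ l, IsTerm B D y) ∧ x = ((l.sum : ℕ) : ℤ)}

lemma finite_image (S : Set ℤ) (k : ℕ) : ((fun x : ℤ => (x : ZMod (2 ^ k))) '' S).Finite :=
  Set.toFinite _

lemma cl_pos {S : Set ℤ} (h : S.Nonempty) (k : ℕ) : 0 < cl S k := by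
  rw [cl, Set.ncard_pos (finite_image S k)]
  exact h.image _

lemma cl_mono {S T : Set ℤ} (h : S ⊆ T) (k : ℕ) : cl S k ≤ cl T k :=
  Set.ncard_le_ncard (Set.image_mono h) (finite_image T k)

lemma cl_le (S : Set ℤ) (k : ℕ) : cl S k ≤ 2 ^ k := by
  have h : cl S k ≤ Nat.card (ZMod (2 ^ k)) := by
    rw [cl, ← Set.ncard_univ]
    exact Set.ncard_le_ncard (Set.subset_univ _) (Set.toFinite _)
  simpa using h

/-- congruence modulo `2^k` of casts -/
lemma cast_eq_iff (k : ℕ) (x y : ℤ) : ((x : ZMod (2 ^ k)) = (y : ZMod (2 ^ k))) ↔ (2 : ℤ) ^ k ∣ y - x := by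
  rw [ZMod.intCast_eq_intCast_iff_dvd_sub]
  push_cast
  rfl

/-- A choice of representatives: a finite subset of `S`, injective modulo `2^k`, of size `cl S k`,
meeting every class met by `S`. -/
lemma exists_reps (S : Set ℤ) (k : ℕ) :
    ∃ R : Finset ℤ, (R : Set ℤ) ⊆ S ∧ R.card = cl S k ∧
      (∀ x ∈ R, ∀ y ∈ R, (2 : ℤ) ^ k ∣ y - x → x = y) ∧
      (∀ x ∈ S, ∃ y ∈ R, (2 : ℤ) ^ k ∣ y - x) := by
  classical
  set f : ℤ → ZMod (2 ^ k) := fun x => (x : ZMod (2 ^ k)) with hf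
  have hfin := finite_image S k
  have hch : ∀ z ∈ f '' S, ∃ x ∈ S, f x = z := fun z hz => hz
  choose! g hg using hch
  refine ⟨hfin.toFinset.image g, ?_, ?_, ?_, ?_⟩
  · intro x hx
    simp only [Finset.coe_image, Set.Finite.coe_toFinset, Set.mem_image] at hx
    obtain ⟨z, ⟨s, hs, rfl⟩, rfl⟩ := hx
    exact (hg _ ⟨s, hs, rfl⟩).1
  · rw [Finset.card_image_of_injOn, cl, Set.ncard_eq_toFinset_card _ hfin]
    intro z hz w hw hzw
    simp only [Set.Finite.coe_toFinset] at hz hw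
    rw [← (hg z hz).2, ← (hg w hw).2, hzw]
  · intro x hx y hy hxy
    simp only [Finset.mem_image, Set.Finite.mem_toFinset] at hx hy
    obtain ⟨z, hz, rfl⟩ := hx
    obtain ⟨w, hw, rfl⟩ := hy
    have h1 : f (g z) = f (g w) := (cast_eq_iff k _ _).2 hxy
    rw [(hg z hz).2, (hg w hw).2] at h1
    rw [h1]
  · intro x hx
    refine ⟨g (f x), ?_, ?_⟩
    · simp only [Finset.mem_image, Set.Finite.mem_toFinset]
      exact ⟨f x, ⟨x, hx, rfl⟩, rfl⟩
    · have := (hg (f x) ⟨x, hx, rfl⟩).2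
      rw [hf] at this
      have h2 := (cast_eq_iff k _ _).1 this
      rw [← neg_sub, dvd_neg]
      exact h2

/-- lower bound for `cl` from an injective finite family -/
lemma card_le_cl {ι : Type*} (s : Finset ι) (f : ι → ℤ) (S : Set ℤ) (k : ℕ)
    (hS : ∀ i ∈ s, f i ∈ S)
    (hinj : ∀ i ∈ s, ∀ j ∈ s, (2 : ℤ) ^ k ∣ f j - f i → i = j) : s.card ≤ cl S k := by
  classical
  have h1 : (s.image (fun i => ((f i : ℤ) : ZMod (2 ^ k)))).card = s.card := by
    apply Finset.card_image_of_injOn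
    intro i hi j hj hij
    exact hinj i hi j hj ((cast_eq_iff k _ _).1 hij)
  rw [← h1, cl, ← Set.ncard_coe_finset]
  apply Set.ncard_le_ncard _ (finite_image S k)
  intro z hz
  simp only [Finset.coe_image, Set.mem_image, Finset.mem_coe] at hz
  obtain ⟨i, hi, rfl⟩ := hz
  exact ⟨f i, hS i hi, rfl⟩

/-- upper bound for `cl`: if every element of `S` is congruent to an element of the image of `T` under
a map compatible with congruences. -/
lemma cl_le_of_map {S T : Set ℤ} {k l : ℕ} (f : ℤ → ℤ)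
    (h : ∀ x ∈ S, ∃ y ∈ T, (2 : ℤ) ^ k ∣ f y - x)
    (hf : ∀ y ∈ T, ∀ z ∈ T, (2 : ℤ) ^ l ∣ z - y → (2 : ℤ) ^ k ∣ f z - f y) : cl S k ≤ cl T l := by
  classical
  obtain ⟨R, hRS, hRc, hRinj, -⟩ := exists_reps S k
  rw [← hRc]
  have hch : ∀ x ∈ R, ∃ y ∈ T, (2 : ℤ) ^ k ∣ f y - x := fun x hx => h x (hRS hx)
  choose! g hg using hch
  apply card_le_cl R g T l (fun i hi => (hg i hi).1)
  intro i hi j hj hij
  apply hRinj i hi j hj
  have h1 := hf _ (hg i hi).1 _ (hg j hj).1 hij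
  have h2 := (hg i hi).2
  have h3 := (hg j hj).2
  have : j - i = (f (g j) - f (g i)) - (f (g j) - j) + (f (g i) - i) := by ring
  rw [this]
  exact dvd_add (dvd_sub h1 h3) h2

lemma cl_mono_right (S : Set ℤ) {k l : ℕ} (h : k ≤ l) : cl S k ≤ cl S l := by
  apply cl_le_of_map (fun x => x)
  · intro x hx
    exact ⟨x, hx, by simp⟩
  · intro y _ z _ hyz
    exact (pow_dvd_pow 2 h).trans hyz

/-- the basic tree inequality -/
lemma cl_shift (A X S : Set ℤ) (i k : ℕ) (h : ∀ a ∈ A, ∀ x ∈ X, a + 2 ^ i * x ∈ S) :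
    cl A i * cl X k ≤ cl S (i + k) := by
  classical
  obtain ⟨R, hRS, hRc, hRinj, -⟩ := exists_reps A i
  obtain ⟨R', hRS', hRc', hRinj', -⟩ := exists_reps X k
  rw [← hRc, ← hRc', ← Finset.card_product]
  apply card_le_cl (R ×ˢ R') (fun p => p.1 + 2 ^ i * p.2)
  · intro p hp
    rw [Finset.mem_product] at hp
    exact h _ (hRS hp.1) _ (hRS' hp.2)
  · rintro ⟨a, x⟩ hp ⟨b, y⟩ hq hd
    rw [Finset.mem_product] at hp hq
    simp only at hp hq hd
    have h1 : (2 : ℤ) ^ i ∣ b - a := by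
      have h2 : (2 : ℤ) ^ i ∣ (b + 2 ^ i * y) - (a + 2 ^ i * x) :=
        (pow_dvd_pow 2 (Nat.le_add_right i k)).trans hd
      have h3 : b - a = ((b + 2 ^ i * y) - (a + 2 ^ i * x)) - 2 ^ i * (y - x) := by ring
      rw [h3]
      exact dvd_sub h2 (dvd_mul_right _ _)
    have hab : a = b := hRinj a hp.1 b hq.1 h1
    subst hab
    have h4 : (2 : ℤ) ^ k ∣ y - x := by
      have h5 : (a + 2 ^ i * y) - (a + 2 ^ i * x) = 2 ^ i * (y - x) := by ring
      rw [h5, pow_add] at hd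
      exact (mul_dvd_mul_iff_left (by positivity)).1 hd
    rw [hRinj' x hp.2 y hq.2 h4]

/-- multiplication by an odd number -/
lemma cl_lin_le (A : Set ℤ) (k : ℕ) (y u v : ℤ) (hu : Odd u) (h : (2 : ℤ) ^ k ∣ u * y - v) :
    cl (lin A 1 y) k ≤ cl (lin A u v) k := by
  have hco : IsCoprime u ((2 : ℤ) ^ k) := by
    apply IsCoprime.pow_right
    obtain ⟨m, hm⟩ := hu
    exact ⟨1, -m, by rw [hm]; ring⟩
  obtain ⟨s, t, hst⟩ := hco
  apply cl_le_of_map (fun x => s * x)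
  · rintro x ⟨a, ha, b, hb, rfl⟩
    refine ⟨u * a + v * b, ⟨a, ha, b, hb, rfl⟩, ?_⟩
    have : s * (u * a + v * b) - (1 * a + y * b)
        = (s * u - 1) * (a + y * b) - s * (u * y - v) * b := by ring
    rw [this]
    have h1 : s * u - 1 = - (t * 2 ^ k) := by linarith
    apply dvd_sub
    · rw [h1]
      exact (dvd_neg.2 (dvd_mul_left _ _)).mul_right _
    · exact (h.mul_left s).mul_right b
  · intro x _ z _ hxz
    rw [← mul_sub]
    exact hxz.mul_left s

end Pool.Agent.Hhelper86.HFact
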