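import Mathlib

/-! Fourier analysis on `ZMod q`: two lemmas. -/

namespace Pool.Agent.Hhelper86.HFact

open Finset ComplexConjugate

/-- number of representations of `c` as `v (p 0) + ... + v (p (r-1))` -/
def rep {q : ℕ} {α : Type*} [Fintype α] (v : α → ZMod q) (r : ℕ) (c : ZMod q) : ℕ :=
  (Finset.univ.filter (fun p : Fin r → α => ∑ i, v (p i) = c)).card

lemma rep_fourier {q : ℕ} [NeZero q] {α : Type*} [Fintype α] (v : α → ZMod q) (r : ℕ) (c : ZMod q) :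
    (q : ℂ) * rep v r c = ∑ ξ : ZMod q, ZMod.stdAddChar (-(ξ * c)) *
      (∑ a, (ZMod.stdAddChar (ξ * v a) : ℂ)) ^ r := by
  classical
  have h1 : ∀ ξ : ZMod q, (ZMod.stdAddChar (-(ξ * c)) : ℂ) * (∑ a, (ZMod.stdAddChar (ξ * v a) : ℂ)) ^ r
      = ∑ p : Fin r → α, (ZMod.stdAddChar (ξ * (∑ i, v (p i) - c)) : ℂ) := by
    intro ξ
    rw [Fintype.sum_pow, Finset.mul_sum]
    apply Finset.sum_congr rfl
    intro p _
    have h2 : ξ * (∑ i, v (p i) - c) = -(ξ * c) + ∑ i, ξ * v (p i) := by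
      rw [mul_sub, Finset.mul_sum]; ring
    rw [h2, AddChar.map_add_eq_mul]
    congr 1
    have h3 : ∀ s : Finset (Fin r), (∏ i ∈ s, (ZMod.stdAddChar (ξ * v (p i)) : ℂ))
        = ZMod.stdAddChar (∑ i ∈ s, ξ * v (p i)) := by
      intro s
      induction s using Finset.induction_on with
      | empty => simp
      | insert a s ha ih => rw [Finset.prod_insert ha, Finset.sum_insert ha, AddChar.map_add_eq_mul, ih]
    exact h3 _
  rw [Finset.sum_congr rfl (fun ξ _ => h1 ξ), Finset.sum_comm]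
  have h3 : ∀ p : Fin r → α, ∑ ξ : ZMod q, (ZMod.stdAddChar (ξ * (∑ i, v (p i) - c)) : ℂ)
      = if ∑ i, v (p i) = c then (q : ℂ) else 0 := by
    intro p
    rw [AddChar.sum_mulShift _ (ZMod.isPrimitive_stdAddChar q)]
    simp only [sub_eq_zero, ZMod.card]
    split_ifs <;> simp
  rw [Finset.sum_congr rfl (fun p _ => h3 p), rep, Finset.card_filter]
  push_cast
  rw [Finset.mul_sum]
  apply Finset.sum_congr rfl
  intro p _
  split_ifs <;> simp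

/-- the difference of the numbers of representations of two residues, when the exponential sum is
small at all frequencies distinguishing them -/
lemma fourier_diff {q : ℕ} [NeZero q] {α : Type*} [Fintype α] (v : α → ZMod q) (r : ℕ) (β : ℝ)
    (hβ : 0 ≤ β) (c c' : ZMod q)
    (h : ∀ ξ : ZMod q, ξ * (c - c') = 0 ∨ ‖∑ a, (ZMod.stdAddChar (ξ * v a) : ℂ)‖ ≤ β) :
    |(rep v r c : ℝ) - rep v r c'| ≤ 2 * β ^ r := by
  have hq : 0 < (q : ℝ) := by exact_mod_cast Nat.pos_of_ne_zero (NeZero.ne q)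
  have h1 : (q : ℂ) * ((rep v r c : ℂ) - rep v r c') = ∑ ξ : ZMod q,
      ((ZMod.stdAddChar (-(ξ * c)) : ℂ) - ZMod.stdAddChar (-(ξ * c'))) *
      (∑ a, (ZMod.stdAddChar (ξ * v a) : ℂ)) ^ r := by
    rw [mul_sub, rep_fourier, rep_fourier, ← Finset.sum_sub_distrib]
    apply Finset.sum_congr rfl
    intro ξ _
    ring
  have h2 : ∀ ξ : ZMod q, ‖((ZMod.stdAddChar (-(ξ * c)) : ℂ) - ZMod.stdAddChar (-(ξ * c'))) *
      (∑ a, (ZMod.stdAddChar (ξ * v a) : ℂ)) ^ r‖ ≤ 2 * β ^ r := by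
    intro ξ
    rcases h ξ with h0 | h0
    · have h3 : ξ * c = ξ * c' := by
        rw [mul_sub, sub_eq_zero] at h0
        exact h0
      rw [h3, sub_self, zero_mul, norm_zero]
      positivity
    · rw [norm_mul, norm_pow]
      have h4 : ‖(ZMod.stdAddChar (-(ξ * c)) : ℂ) - ZMod.stdAddChar (-(ξ * c'))‖ ≤ 2 := by
        refine (norm_sub_le _ _).trans ?_
        rw [AddChar.norm_apply, AddChar.norm_apply]
        norm_num
      gcongr
  have h5 : ‖(q : ℂ) * ((rep v r c : ℂ) - rep v r c')‖ ≤ q * (2 * β ^ r) := by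
    rw [h1]
    refine (norm_sum_le _ _).trans ?_
    refine (Finset.sum_le_sum (fun ξ _ => h2 ξ)).trans ?_
    rw [Finset.sum_const, nsmul_eq_mul, Finset.card_univ, ZMod.card]
  rw [norm_mul] at h5
  have h6 : ‖(q : ℂ)‖ = q := by simp
  rw [h6] at h5
  have h7 : ‖(rep v r c : ℂ) - rep v r c'‖ = |(rep v r c : ℝ) - rep v r c'| := by
    rw [← Real.norm_eq_abs]
    rw [← Complex.norm_real]
    push_cast
    rfl
  rw [h7] at h5
  exact le_of_mul_le_mul_left h5 hq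

/-- bilinear sums -/
lemma bilinear {q : ℕ} [NeZero q] (X Y : Finset (ZMod q)) (ξ : ZMod q)
    (h : ∀ y ∈ Y, ∀ y' ∈ Y, y ≠ y' → ξ * (y - y') ≠ 0) :
    ‖∑ a : (X ×ˢ Y : Finset (ZMod q × ZMod q)), (ZMod.stdAddChar (ξ * (a.1.1 * a.1.2)) : ℂ)‖ ^ 2
      ≤ X.card * (q * Y.card) := by
  classical
  have h0 : ∑ a : (X ×ˢ Y : Finset (ZMod q × ZMod q)), (ZMod.stdAddChar (ξ * (a.1.1 * a.1.2)) : ℂ)
      = ∑ x ∈ X, ∑ y ∈ Y, (ZMod.stdAddChar (ξ * (x * y)) : ℂ) := by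
    rw [← Finset.sum_product' (f := fun x y => (ZMod.stdAddChar (ξ * (x * y)) : ℂ))]
    exact Finset.sum_coe_sort (X ×ˢ Y)
      (fun a : ZMod q × ZMod q => (ZMod.stdAddChar (ξ * (a.1 * a.2)) : ℂ))
  rw [h0]
  have h1 : ‖∑ x ∈ X, ∑ y ∈ Y, (ZMod.stdAddChar (ξ * (x * y)) : ℂ)‖ ^ 2
      ≤ X.card * ∑ x ∈ X, ‖∑ y ∈ Y, (ZMod.stdAddChar (ξ * (x * y)) : ℂ)‖ ^ 2 := by
    calc _ ≤ (∑ x ∈ X, ‖∑ y ∈ Y, (ZMod.stdAddChar (ξ * (x * y)) : ℂ)‖) ^ 2 := by
          gcongr; exact norm_sum_le _ _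
      _ ≤ _ := by exact sq_sum_le_card_mul_sum_sq
  refine h1.trans ?_
  gcongr
  have h2 : ∑ x ∈ X, ‖∑ y ∈ Y, (ZMod.stdAddChar (ξ * (x * y)) : ℂ)‖ ^ 2
      ≤ ∑ x : ZMod q, ‖∑ y ∈ Y, (ZMod.stdAddChar (ξ * (x * y)) : ℂ)‖ ^ 2 := by
    apply Finset.sum_le_sum_of_subset_of_nonneg (Finset.subset_univ _)
    intro x _ _
    positivity
  refine h2.trans (le_of_eq ?_)
  have h3 : ∀ x : ZMod q, ((‖∑ y ∈ Y, (ZMod.stdAddChar (ξ * (x * y)) : ℂ)‖ ^ 2 : ℝ) : ℂ)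
      = ∑ y ∈ Y, ∑ y' ∈ Y, (ZMod.stdAddChar (x * (ξ * (y - y'))) : ℂ) := by
    intro x
    push_cast
    rw [← Complex.mul_conj', map_sum, Finset.sum_mul_sum]
    apply Finset.sum_congr rfl
    intro y _
    apply Finset.sum_congr rfl
    intro y' _
    rw [← AddChar.map_neg_eq_conj, ← AddChar.map_add_eq_mul]
    congr 1
    ring
  have h4 : ((∑ x : ZMod q, ‖∑ y ∈ Y, (ZMod.stdAddChar (ξ * (x * y)) : ℂ)‖ ^ 2 : ℝ) : ℂ)
      = ((q * Y.card : ℝ) : ℂ) := by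
    push_cast
    have h5 : ∀ x : ZMod q, ((‖∑ y ∈ Y, (ZMod.stdAddChar (ξ * (x * y)) : ℂ)‖ : ℝ) : ℂ) ^ 2
      = ∑ y ∈ Y, ∑ y' ∈ Y, (ZMod.stdAddChar (x * (ξ * (y - y'))) : ℂ) := by
      intro x
      rw [← h3 x]
      push_cast
      rfl
    rw [Finset.sum_congr rfl (fun x _ => h5 x), Finset.sum_comm]
    have h6 : ∀ y ∈ Y, ∑ x : ZMod q, ∑ y' ∈ Y, (ZMod.stdAddChar (x * (ξ * (y - y'))) : ℂ) = q := by
      intro y hy
      rw [Finset.sum_comm]
      have h7 : ∀ y' ∈ Y, ∑ x : ZMod q, (ZMod.stdAddChar (x * (ξ * (y - y'))) : ℂ)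
          = if y = y' then (q : ℂ) else 0 := by
        intro y' hy'
        rw [AddChar.sum_mulShift _ (ZMod.isPrimitive_stdAddChar q), ZMod.card]
        by_cases hyy : y = y'
        · subst hyy
          simp
        · rw [if_neg (h y hy y' hy' hyy), if_neg hyy]
          simp
      rw [Finset.sum_congr rfl h7, Finset.sum_ite_eq, if_pos hy]
    rw [Finset.sum_congr rfl h6, Finset.sum_const, nsmul_eq_mul]
    ring
  exact_mod_cast h4

end Pool.Agent.Hhelper86.HFact
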