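import Pool.Agent.Hhelper86.HFact.Growth
import Pool.Agent.Hhelper86.HFact.Fourier

namespace Pool.Agent.Hhelper86.HFact

open Finset

lemma PP_sum {B : Set ℕ} {N D : ℕ} (n : ℕ) (f : Fin n → ℤ) (h : ∀ i, f i ∈ PP B N D) :
    ∑ i, f i ∈ PP B (n * N) D := by
  induction n with
  | zero => simpa using zero_mem_PP _ _
  | succ n ih =>
    rw [Fin.sum_univ_castSucc, Nat.succ_mul]
    exact PP_add (ih _ (fun i => h _)) (h _)

set_option maxHeartbeats 2000000 in
/-- A whole class modulo `2^(K/2)` is covered modulo `2^K`. -/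
theorem cover_half (ε : ℝ) (hε : 0 < ε) (hε1 : ε ≤ 1) :
    ∃ N m K0 : ℕ, 0 < m ∧ ∀ K ≥ K0, ∀ B : Set ℕ,
      (∀ k : ℕ, K ≤ m * k → k ≤ K → ε * k ≤ lg (cl ((fun n : ℕ => (n : ℤ)) '' B) k)) →
      ∃ c0 : ℤ, ∀ c : ℤ, (2 : ℤ) ^ (K / 2) ∣ c - c0 → ∃ x ∈ PP B N N, (2 : ℤ) ^ K ∣ c - x := by
  classical
  obtain ⟨J, m1, K1, hm1, hgrow⟩ := growth ε (ε / 12) hε hε1 (by positivity) (by linarith)
  set r' : ℕ := ⌈8 / ε⌉₊ with hr'
  refine ⟨2 * r' * (J * 1) + (J + 1), m1 + 3, K1 + 3, by omega, ?_⟩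
  intro K hK B hB
  set BB : Set ℤ := (fun n : ℕ => (n : ℤ)) '' B with hBB
  set i : ℕ := K / 2 with hi
  have hiK : i ≤ K := Nat.div_le_self _ _
  have hi2 : (K : ℝ) - 1 ≤ 2 * i := by
    have : K ≤ 2 * i + 1 := by omega
    have : (K : ℝ) ≤ 2 * i + 1 := by exact_mod_cast this
    linarith
  have hX0 : (1 - ε / 12) * K ≤ lg (cl (PP B J J) K) := by
    apply hgrow K (by omega) B
    intro k hk hkK
    apply hB k _ hkK
    calc K ≤ m1 * k := hk
      _ ≤ (m1 + 3) * k := Nat.mul_le_mul_right _ (by omega)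
  have hY0 : ε * i ≤ lg (cl BB i) := by
    apply hB i _ hiK
    calc K ≤ 3 * i := by omega
      _ ≤ (m1 + 3) * i := Nat.mul_le_mul_right _ (by omega)
  obtain ⟨R, hRS, hRc, hRinj, -⟩ := exists_reps (PP B J J) K
  obtain ⟨R', hRS', hRc', hRinj', -⟩ := exists_reps BB i
  set f : ℤ → ZMod (2 ^ K) := fun x => (x : ZMod (2 ^ K)) with hf
  set X : Finset (ZMod (2 ^ K)) := R.image f with hX
  set Y : Finset (ZMod (2 ^ K)) := R'.image f with hY
  have hXc : X.card = cl (PP B J J) K := by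
    rw [hX, Finset.card_image_of_injOn, hRc]
    intro x hx y hy hxy
    exact hRinj x hx y hy ((cast_eq_iff K x y).1 hxy)
  have hYc : Y.card = cl BB i := by
    rw [hY, Finset.card_image_of_injOn, hRc']
    intro x hx y hy hxy
    exact hRinj' x hx y hy ((pow_dvd_pow 2 hiK).trans ((cast_eq_iff K x y).1 hxy))
  -- sizes
  have hXpos : 0 < X.card := by rw [hXc]; exact cl_pos (PP_nonempty _ _) _
  have hYpos : 0 < Y.card := by
    rw [hYc]
    rcases Nat.eq_zero_or_pos (cl BB i) with h0 | h0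
    · rw [h0] at hY0
      simp only [lg, Nat.cast_zero, Real.logb_zero] at hY0
      have : 1 ≤ i := by omega
      have : (1 : ℝ) ≤ i := by exact_mod_cast this
      nlinarith
    · exact h0
  set P : ℝ := (X.card : ℝ) * Y.card with hP
  have hPpos : 0 < P := by positivity
  set q : ℝ := (2 : ℝ) ^ K with hq
  have hqpos : 0 < q := by positivity
  have hq4 : 4 ≤ q := by
    have : (2 : ℝ) ^ 2 ≤ 2 ^ K := by
      apply pow_le_pow_right₀ (by norm_num) (by omega)
    rw [hq]; linarith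
  have hKR : (3 : ℝ) ≤ K := by exact_mod_cast (by omega : 3 ≤ K)
  have hPq : q * (2 : ℝ) ^ (ε * K / 4) ≤ P := by
    have h1 : Real.logb 2 P = lg X.card + lg Y.card := by
      rw [hP]; unfold lg
      exact Real.logb_mul (by positivity) (by positivity)
    have h2 : (K : ℝ) + ε * K / 4 ≤ Real.logb 2 P := by
      rw [h1, hXc, hYc]
      nlinarith
    rw [Real.le_logb_iff_rpow_le (by norm_num) hPpos, Real.rpow_add (by norm_num),
      Real.rpow_natCast] at h2
    exact h2
  have hbig : 2 * q * q ^ r' < P ^ r' := by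
    have h1 : (q * (2 : ℝ) ^ (ε * K / 4)) ^ r' ≤ P ^ r' := by gcongr
    refine lt_of_lt_of_le ?_ h1
    rw [mul_pow]
    have h2 : q ^ 2 ≤ ((2 : ℝ) ^ (ε * K / 4)) ^ r' := by
      rw [← Real.rpow_mul_natCast (by norm_num), hq, ← pow_mul, ← Real.rpow_natCast]
      apply Real.rpow_le_rpow_of_exponent_le (by norm_num)
      have h3 : 8 / ε ≤ r' := Nat.le_ceil _
      rw [div_le_iff₀ hε] at h3
      push_cast
      nlinarith
    calc 2 * q * q ^ r' < q ^ 2 * q ^ r' := by
          apply mul_lt_mul_of_pos_right _ (by positivity)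
          nlinarith
      _ = q ^ r' * q ^ 2 := by ring
      _ ≤ q ^ r' * ((2 : ℝ) ^ (ε * K / 4)) ^ r' := by gcongr
  -- representation function
  set v : (X ×ˢ Y : Finset (ZMod (2 ^ K) × ZMod (2 ^ K))) → ZMod (2 ^ K) := fun a => a.1.1 * a.1.2 with hv
  have hcardα : (Fintype.card (X ×ˢ Y : Finset (ZMod (2 ^ K) × ZMod (2 ^ K))) : ℝ) = P := by
    rw [Fintype.card_coe, Finset.card_product, hP]; push_cast; rfl
  -- pigeonhole
  obtain ⟨cs, hcs⟩ : ∃ c : ZMod (2 ^ K), P ^ (2 * r') ≤ q * rep v (2 * r') c := by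
    by_contra hcon
    push Not at hcon
    have h1 : ∑ c : ZMod (2 ^ K), rep v (2 * r') c
        = Fintype.card (Fin (2 * r') → (X ×ˢ Y : Finset (ZMod (2 ^ K) × ZMod (2 ^ K)))) := by
      unfold rep
      rw [← Finset.card_univ]
      exact (Finset.card_eq_sum_card_fiberwise (fun p _ => Finset.mem_univ _)).symm
    have h2 : (∑ c : ZMod (2 ^ K), (rep v (2 * r') c : ℝ)) = P ^ (2 * r') := by
      rw [← Nat.cast_sum, h1, Fintype.card_fun, Fintype.card_fin]
      push_cast
      rw [hcardα]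
    have h3 : ∑ c : ZMod (2 ^ K), q * (rep v (2 * r') c : ℝ) < ∑ c : ZMod (2 ^ K), P ^ (2 * r') := by
      apply Finset.sum_lt_sum_of_nonempty
      · exact ⟨0, Finset.mem_univ _⟩
      · intro c _
        exact hcon c
    rw [← Finset.mul_sum, h2, Finset.sum_const, Finset.card_univ, ZMod.card, nsmul_eq_mul] at h3
    push_cast at h3
    exact lt_irrefl _ h3
  obtain ⟨c0, hc0⟩ := ZMod.intCast_surjective cs
  refine ⟨c0, ?_⟩
  intro c hc
  -- the key estimate
  set β : ℝ := Real.sqrt (X.card * ((2 ^ K : ℕ) * Y.card)) with hβ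
  have hβ2 : β ^ 2 = q * P := by
    rw [hβ, Real.sq_sqrt (by positivity), hP, hq]
    push_cast
    ring
  have hdiff := fourier_diff v (2 * r') β (Real.sqrt_nonneg _) (f c) (f c0) (by
    intro ξ
    by_cases hξ : ξ * 2 ^ i = 0
    · left
      obtain ⟨w, hw⟩ := hc
      have h1 : f c - f c0 = 2 ^ i * (w : ZMod (2 ^ K)) := by
        simp only [hf]
        rw [← Int.cast_sub, hw]
        push_cast
        rfl
      rw [h1, ← mul_assoc, hξ, zero_mul]
    · right
      apply Real.le_sqrt_of_sq_le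
      apply bilinear X Y ξ
      intro y hy y' hy' hne h0
      rw [hY, Finset.mem_image] at hy hy'
      obtain ⟨b, hb, rfl⟩ := hy
      obtain ⟨b', hb', rfl⟩ := hy'
      have hbne : b ≠ b' := fun h => hne (by rw [h])
      have hnd : ¬ (2 : ℤ) ^ i ∣ b' - b := fun h => hbne (hRinj' b hb b' hb' h)
      have hnd' : ¬ (2 : ℤ) ^ i ∣ b - b' := by
        intro h; apply hnd; rw [← neg_sub, dvd_neg]; exact h
      have hne0 : b - b' ≠ 0 := by
        intro h; rw [h] at hnd'; exact hnd' (dvd_zero _)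
      obtain ⟨e, u, hu, hbu⟩ := exists_two_pow_mul_odd _ hne0
      have he : e < i := by
        by_contra hge
        push Not at hge
        apply hnd'
        rw [hbu]
        exact (pow_dvd_pow 2 hge).mul_right _
      have hunit : IsUnit ((u : ZMod (2 ^ K))) := by
        have hco : IsCoprime u ((2 : ℤ) ^ K) := by
          apply IsCoprime.pow_right
          obtain ⟨t, ht⟩ := hu
          exact ⟨1, -t, by rw [ht]; ring⟩
        obtain ⟨s, t, hst⟩ := hco
        have h2 : ((s : ZMod (2 ^ K))) * u = 1 := by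
          have h3 : ((s * u + t * 2 ^ K : ℤ) : ZMod (2 ^ K)) = ((1 : ℤ) : ZMod (2 ^ K)) := by rw [hst]
          push_cast at h3
          have h4 : (2 : ZMod (2 ^ K)) ^ K = 0 := by
            have := ZMod.natCast_self (2 ^ K)
            push_cast at this
            exact this
          rw [h4, mul_zero, add_zero] at h3
          exact h3
        exact ⟨⟨(u : ZMod (2 ^ K)), (s : ZMod (2 ^ K)), by rw [mul_comm]; exact h2, h2⟩, rfl⟩
      apply hξ
      have h5 : f b - f b' = 2 ^ e * (u : ZMod (2 ^ K)) := by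
        simp only [hf]
        rw [← Int.cast_sub, hbu]
        push_cast
        rfl
      rw [h5, ← mul_assoc] at h0
      have h6 : ξ * 2 ^ e = 0 := by
        exact (hunit.mul_left_eq_zero).1 h0
      have h7 : i = e + (i - e) := by omega
      rw [h7, pow_add, ← mul_assoc, h6, zero_mul])
  have hpos : 0 < rep v (2 * r') (f c) := by
    have h1 : (rep v (2 * r') (f c0) : ℝ) - rep v (2 * r') (f c) ≤ 2 * β ^ (2 * r') := by
      have := abs_sub_comm (rep v (2 * r') (f c) : ℝ) (rep v (2 * r') (f c0))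
      rw [this] at hdiff
      exact (le_abs_self _).trans hdiff
    have h2 : f c0 = cs := hc0
    rw [h2] at h1
    have h3 : β ^ (2 * r') = q ^ r' * P ^ r' := by rw [pow_mul, hβ2, mul_pow]
    rw [h3] at h1
    have h4 : P ^ (2 * r') = P ^ r' * P ^ r' := by rw [two_mul, pow_add]
    rw [h4] at hcs
    have h5 : 0 < P ^ r' := by positivity
    have h6 : q * (2 * (q ^ r' * P ^ r')) < P ^ r' * P ^ r' := by
      calc q * (2 * (q ^ r' * P ^ r')) = (2 * q * q ^ r') * P ^ r' := by ring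
        _ < P ^ r' * P ^ r' := by
          apply mul_lt_mul_of_pos_right hbig h5
    have h7 : q * (2 * (q ^ r' * P ^ r')) < q * rep v (2 * r') cs := lt_of_lt_of_le h6 hcs
    have h8 : 2 * (q ^ r' * P ^ r') < rep v (2 * r') cs := lt_of_mul_lt_mul_left h7 hqpos.le
    have h9 : (0 : ℝ) < rep v (2 * r') (f c) := by linarith
    exact_mod_cast h9
  obtain ⟨p, hp⟩ := Finset.card_pos.1 hpos
  rw [Finset.mem_filter] at hp
  have hp2 := hp.2
  have hlift : ∀ a : (X ×ˢ Y : Finset (ZMod (2 ^ K) × ZMod (2 ^ K))), ∃ x ∈ PP B (J * 1) (J + 1),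
      f x = v a := by
    rintro ⟨⟨a, b⟩, hab⟩
    rw [Finset.mem_product] at hab
    obtain ⟨ha, hb⟩ := hab
    simp only [hX, hY, Finset.mem_image] at ha hb
    obtain ⟨x, hx, rfl⟩ := ha
    obtain ⟨y, hy, rfl⟩ := hb
    obtain ⟨b, hb, hby⟩ := hRS' hy
    refine ⟨x * y, PP_mul (hRS hx) ?_, ?_⟩
    · rw [← hby]; exact mem_PP_of_mem hb
    · simp only [hf, hv]; push_cast; rfl
  choose g hg1 hg2 using hlift
  refine ⟨∑ l, g (p l), PP_mono (by omega) (by omega) (PP_sum (2 * r') (fun l => g (p l)) (fun l => hg1 _)), ?_⟩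
  rw [← cast_eq_iff]
  have h10 : f (∑ l, g (p l)) = ∑ l, v (p l) := by
    simp only [hf]
    push_cast
    exact Finset.sum_congr rfl (fun l _ => hg2 (p l))
  change f (∑ l, g (p l)) = f c
  rw [h10]
  exact hp2

end Pool.Agent.Hhelper86.HFact
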