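import Pool.Agent.Hhelper86.HFact.Cover

namespace Pool.Agent.Hhelper86.HFact

lemma two_pow_mem_PP {B : Set ℕ} (e D : ℕ) : (2 : ℤ) ^ e ∈ PP B 1 D :=
  ⟨[2 ^ e], by simp, by
    intro y hy
    rw [List.mem_singleton] at hy
    exact ⟨e, [], by simp, by simp, by simpa using hy⟩, by simp⟩

lemma lt_two_pow_mem_PP {B : Set ℕ} (D : ℕ) : ∀ K a : ℕ, a < 2 ^ K → (a : ℤ) ∈ PP B K D := by
  intro K
  induction K with
  | zero =>
    intro a ha
    have : a = 0 := by simpa using ha
    subst this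
    exact zero_mem_PP _ _
  | succ K ih =>
    intro a ha
    rcases lt_or_ge a (2 ^ K) with h | h
    · exact PP_mono (Nat.le_succ K) le_rfl (ih a h)
    · have h1 : a - 2 ^ K < 2 ^ K := by rw [pow_succ] at ha; omega
      have h2 := PP_add (ih _ h1) (two_pow_mem_PP (B := B) K D)
      have h3 : ((a - 2 ^ K : ℕ) : ℤ) + 2 ^ K = a := by
        rw [Nat.cast_sub h]; push_cast; ring
      rw [h3] at h2
      exact h2

/-- every residue modulo `2^K` is a sum of few terms -/
theorem cover (ε : ℝ) (hε : 0 < ε) (hε1 : ε ≤ 1) :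
    ∃ N m K0 : ℕ, 0 < m ∧ ∀ (B : Set ℕ) (K1 Kmax : ℕ), K0 ≤ K1 →
      (∀ k : ℕ, K1 ≤ m * k → k ≤ Kmax → ε * k ≤ lg (cl ((fun n : ℕ => (n : ℤ)) '' B) k)) →
      ∀ K ≤ Kmax, ∀ c : ℤ, ∃ x ∈ PP B (N * (Nat.log 2 K + 1) + K1) N, (2 : ℤ) ^ K ∣ c - x := by
  obtain ⟨N, m, K0, hm, h⟩ := cover_half ε hε hε1
  refine ⟨N, m, K0 + 2, hm, ?_⟩
  intro B K1 Kmax hK1 hB K
  induction K using Nat.strong_induction_on with
  | _ K ih =>
    intro hK c
    rcases lt_or_ge K K1 with hlt | hge
    · have h2 : (0 : ℤ) ≤ c % 2 ^ K := Int.emod_nonneg _ (by positivity)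
      have h3 : c % 2 ^ K < 2 ^ K := Int.emod_lt_of_pos _ (by positivity)
      obtain ⟨a, ha⟩ := Int.eq_ofNat_of_zero_le h2
      rw [ha] at h3
      have h4 : a < 2 ^ K := by exact_mod_cast h3
      refine ⟨a, PP_mono (by omega) le_rfl (lt_two_pow_mem_PP N K a h4), ?_⟩
      rw [← ha]
      exact Int.dvd_self_sub_emod
    · obtain ⟨c0, hc0⟩ := h K (by omega) B (by
        intro k hk hkK
        exact hB k (hge.trans hk) (hkK.trans hK))
      obtain ⟨x1, hx1, hd1⟩ := ih (K / 2) (Nat.div_lt_self (by omega) (by norm_num)) (by omega) (c - c0)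
      obtain ⟨x2, hx2, hd2⟩ := hc0 (c - x1) (by
        have : c - x1 - c0 = c - c0 - x1 := by ring
        rw [this]; exact hd1)
      refine ⟨x1 + x2, PP_mono ?_ le_rfl (PP_add hx1 hx2), ?_⟩
      · have h5 : Nat.log 2 K = Nat.log 2 (K / 2) + 1 := by
          rw [Nat.log_div_base]
          have : 0 < Nat.log 2 K := Nat.log_pos (by norm_num) (by omega)
          omega
        rw [h5]
        ring_nf
        omega
      · have : c - (x1 + x2) = c - x1 - x2 := by ring
        rw [this]; exact hd2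

/-- passage to lists of divisors of `2^K Q^N` -/
lemma to_divisors (Q N N' K : ℕ) (x : ℤ) (hx : x ∈ PP {b | b ∣ Q} N' N) (c : ℕ)
    (hc : (2 : ℤ) ^ K ∣ c - x) :
    ∃ l : List ℕ, l.length ≤ N' ∧ (∀ d ∈ l, d ∣ 2 ^ K * Q ^ N) ∧ l.sum ≡ c [MOD 2 ^ K] := by
  obtain ⟨l, hl, ht, rfl⟩ := hx
  refine ⟨l.filter (fun y => ¬ 2 ^ K ∣ y), (List.length_filter_le _ _).trans hl, ?_, ?_⟩
  · intro d hd
    rw [List.mem_filter] at hd
    obtain ⟨hd1, hd2⟩ := hd
    simp only [decide_not, Bool.not_eq_eq_eq_not, Bool.not_true, decide_eq_false_iff_not] at hd2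
    obtain ⟨e, m, hm, hb, rfl⟩ := ht d hd1
    have he : e < K := by
      by_contra hge
      push Not at hge
      exact hd2 ((pow_dvd_pow 2 hge).mul_right _)
    apply mul_dvd_mul (pow_dvd_pow 2 he.le)
    have h1 : m.prod ∣ Q ^ m.length := by
      clear hd1 hd2 hm
      induction m with
      | nil => simp
      | cons a t ih =>
        rw [List.prod_cons, List.length_cons, pow_succ, mul_comm]
        apply mul_dvd_mul
        · exact ih (fun b hb2 => hb b (List.mem_cons_of_mem _ hb2))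
        · exact hb a List.mem_cons_self
    exact h1.trans (pow_dvd_pow Q hm)
  · have h1 : ∀ l : List ℕ, ((l.filter (fun y => ¬ 2 ^ K ∣ y)).sum) ≡ l.sum [MOD 2 ^ K] := by
      intro l
      induction l with
      | nil => rfl
      | cons a t ih =>
        by_cases ha : 2 ^ K ∣ a
        · have h3 : (a :: t).filter (fun y => ¬ 2 ^ K ∣ y) = t.filter (fun y => ¬ 2 ^ K ∣ y) := by
            rw [List.filter_cons_of_neg]
            simpa using ha
          rw [h3, List.sum_cons]
          have h4 : a + t.sum ≡ 0 + t.sum [MOD 2 ^ K] :=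
            Nat.ModEq.add_right _ ((Nat.modEq_zero_iff_dvd).2 ha)
          rw [zero_add] at h4
          exact ih.trans h4.symm
        · have h3 : (a :: t).filter (fun y => ¬ 2 ^ K ∣ y) = a :: t.filter (fun y => ¬ 2 ^ K ∣ y) := by
            rw [List.filter_cons_of_pos]
            simpa using ha
          rw [h3, List.sum_cons, List.sum_cons]
          exact Nat.ModEq.add_left _ ih
    refine (h1 l).trans ?_
    rw [Nat.modEq_iff_dvd]
    push_cast at hc ⊢
    exact hc

end Pool.Agent.Hhelper86.HFact
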