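import Pool.Agent.Hhelper86.HFact.Growth
import Pool.Agent.Hhelper86.HFact.Asym

namespace Pool.Agent.Hhelper86.HFact

open Filter Finset

lemma pow_le_mul_choose {n t : ℕ} (h : t ≤ n) : n ^ t ≤ t ^ t * n.choose t := by
  have h1 : n ^ t * t.factorial ≤ t ^ t * n.descFactorial t := by
    rw [← Nat.descFactorial_self t, Nat.descFactorial_eq_prod_range, Nat.descFactorial_eq_prod_range]
    rw [← Finset.card_range t]
    simp only [Finset.card_range]
    calc n ^ t * ∏ i ∈ range t, (t - i) = ∏ i ∈ range t, (n * (t - i)) := by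
          rw [Finset.prod_mul_distrib]; simp
      _ ≤ ∏ i ∈ range t, (t * (n - i)) := by
          apply Finset.prod_le_prod' 
          intro i hi
          rw [Finset.mem_range] at hi
          rw [Nat.mul_sub, Nat.mul_sub, mul_comm t n]
          exact Nat.sub_le_sub_left (Nat.mul_le_mul_right i h) _
      _ = t ^ t * ∏ i ∈ range t, (n - i) := by
          rw [Finset.prod_mul_distrib]; simp
  rw [Nat.descFactorial_eq_factorial_mul_choose] at h1
  have h2 : t.factorial * n ^ t ≤ t.factorial * (t ^ t * n.choose t) := by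
    calc t.factorial * n ^ t = n ^ t * t.factorial := by ring
      _ ≤ t ^ t * (t.factorial * n.choose t) := h1
      _ = _ := by ring
  exact Nat.le_of_mul_le_mul_left h2 (Nat.factorial_pos t)

/-- number of residues of divisors of the primorial -/
lemma choose_le_cl (y t k : ℕ) (h : y ^ t < 2 ^ k) :
    (Nat.primeCounting y).choose t ≤ cl ((fun n : ℕ => (n : ℤ)) '' {b | b ∣ primorial y}) k := by
  classical
  set S : Finset ℕ := (range (y + 1)).filter Nat.Prime with hS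
  have hcard : S.card = Nat.primeCounting y := by
    rw [Nat.primeCounting, Nat.primeCounting', Nat.count_eq_card_filter_range]
  rw [← hcard, ← Finset.card_powersetCard]
  have hsmall : ∀ A ∈ powersetCard t S, ∏ p ∈ A, p < 2 ^ k := by
    intro A hA
    rw [Finset.mem_powersetCard] at hA
    refine lt_of_le_of_lt ?_ h
    rw [← hA.2]
    apply Finset.prod_le_pow_card
    intro p hp
    have := hA.1 hp
    rw [hS, Finset.mem_filter, Finset.mem_range] at this
    omega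
  apply card_le_cl (powersetCard t S) (fun A => ((∏ p ∈ A, p : ℕ) : ℤ))
  · intro A hA
    rw [Finset.mem_powersetCard] at hA
    refine ⟨∏ p ∈ A, p, ?_, rfl⟩
    exact Finset.prod_dvd_prod_of_subset _ _ _ hA.1
  · intro A hA A' hA' hd
    have h1 := hsmall A hA
    have h2 := hsmall A' hA'
    have h3 : ∏ p ∈ A, p = ∏ p ∈ A', p := by
      have h4 : ∏ p ∈ A, p ≡ ∏ p ∈ A', p [MOD 2 ^ k] := by
        rw [Nat.modEq_iff_dvd]
        push_cast at hd ⊢
        exact hd
      exact Nat.ModEq.eq_of_lt_of_lt h4 h1 h2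
    rw [Finset.mem_powersetCard] at hA hA'
    have hp : ∀ A : Finset ℕ, A ⊆ S → ∀ p ∈ A, p.Prime := by
      intro A hA p hp
      have := hA hp
      rw [hS, Finset.mem_filter] at this
      exact this.2
    rw [← Nat.primeFactors_prod (hp A hA.1), ← Nat.primeFactors_prod (hp A' hA'.1), h3]

theorem dens (γ : ℝ) (hγ : 0 < γ) (hγ1 : γ ≤ 1 / 4) :
    ∀ᶠ v : ℕ in atTop, ∀ k : ℕ, 4 * (Nat.log 2 v + 1) ≤ k → (k : ℝ) ≤ (v : ℝ) ^ (1 - 2 * γ) →
      γ / 8 * k ≤ lg (cl ((fun n : ℕ => (n : ℤ)) '' {b | b ∣ primorial ⌊(v : ℝ) ^ (1 - γ)⌋₊}) k) := by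
  filter_upwards [eventually_ge_atTop 4, floor_ge (1 - γ) (by linarith),
    (tendsto_floor_rpow (1 - γ) (by linarith)).eventually (pi_lower (γ / 4) (by positivity)),
    pow_dom 2 (1 - 3 / 2 * γ) (1 - 5 / 4 * γ) (by linarith)] with v hv hfl hpi hdom
  intro k hk1 hk2
  set y : ℕ := ⌊(v : ℝ) ^ (1 - γ)⌋₊ with hy
  set a : ℕ := Nat.log 2 v + 1 with ha
  set t : ℕ := (k - 1) / a with ht
  set p : ℕ := Nat.primeCounting y with hp
  have hvR : (4 : ℝ) ≤ v := by exact_mod_cast hv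
  have hv1 : (1 : ℝ) ≤ v := by linarith
  have hvpos : (0 : ℝ) < v := by linarith
  have hapos : 0 < a := Nat.succ_pos _
  have haR : (0 : ℝ) < a := by exact_mod_cast hapos
  have hyv : y ≤ v := by
    have : (y : ℝ) ≤ v := by
      refine (Nat.floor_le (by positivity)).trans ?_
      calc (v : ℝ) ^ (1 - γ) ≤ (v : ℝ) ^ (1 : ℝ) := Real.rpow_le_rpow_of_exponent_le hv1 (by linarith)
        _ = v := Real.rpow_one _
    exact_mod_cast this
  have hva : v < 2 ^ a := Nat.lt_pow_succ_log_self (by norm_num) v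
  have hat : a * t ≤ k - 1 := Nat.mul_div_le _ _
  have hyt : y ^ t < 2 ^ k := by
    calc y ^ t ≤ (2 ^ a) ^ t := Nat.pow_le_pow_left (hyv.trans hva.le) t
      _ = 2 ^ (a * t) := by rw [← pow_mul]
      _ ≤ 2 ^ (k - 1) := Nat.pow_le_pow_right (by norm_num) hat
      _ < 2 ^ k := Nat.pow_lt_pow_right (by norm_num) (by omega)
  refine le_trans ?_ (lg_mono (choose_le_cl y t k hyt))
  -- t ≥ 1
  have htpos : 0 < t := Nat.div_pos (by omega) hapos
  have htR : (0 : ℝ) < t := by exact_mod_cast htpos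
  have htk : k ≤ a * (t + 1) := by
    have h1 : k - 1 < a * (t + 1) := by
      have := Nat.lt_mul_div_succ (k - 1) hapos
      exact this
    omega
  have htk2 : t ≤ k := (Nat.div_le_self _ _).trans (Nat.sub_le _ _)
  have htkR : (t : ℝ) ≤ (v : ℝ) ^ (1 - 2 * γ) := le_trans (by exact_mod_cast htk2) hk2
  -- lower bound for p
  have hpl : (v : ℝ) ^ (1 - 3 / 2 * γ) ≤ p := by
    refine le_trans ?_ hpi
    have h1 : ((v : ℝ) ^ (1 - γ) / 2) ^ (1 - γ / 4) ≤ (y : ℝ) ^ (1 - γ / 4) := by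
      apply Real.rpow_le_rpow (by positivity) hfl (by linarith)
    refine le_trans ?_ h1
    rw [Real.div_rpow (by positivity) (by norm_num), ← Real.rpow_mul hvpos.le,
      le_div_iff₀ (by positivity)]
    have h2 : (2 : ℝ) ^ (1 - γ / 4) ≤ 2 := by
      calc (2 : ℝ) ^ (1 - γ / 4) ≤ (2 : ℝ) ^ (1 : ℝ) :=
            Real.rpow_le_rpow_of_exponent_le (by norm_num) (by linarith)
        _ = 2 := Real.rpow_one _
    calc (v : ℝ) ^ (1 - 3 / 2 * γ) * 2 ^ (1 - γ / 4) ≤ (v : ℝ) ^ (1 - 3 / 2 * γ) * 2 := by gcongr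
      _ = 2 * (v : ℝ) ^ (1 - 3 / 2 * γ) := by ring
      _ ≤ (v : ℝ) ^ (1 - 5 / 4 * γ) := hdom
      _ ≤ (v : ℝ) ^ ((1 - γ) * (1 - γ / 4)) := by
        apply Real.rpow_le_rpow_of_exponent_le hv1
        nlinarith [sq_nonneg γ]
  have hratio : (t : ℝ) * (v : ℝ) ^ (γ / 2) ≤ p := by
    calc (t : ℝ) * (v : ℝ) ^ (γ / 2) ≤ (v : ℝ) ^ (1 - 2 * γ) * (v : ℝ) ^ (γ / 2) := by gcongr
      _ = (v : ℝ) ^ (1 - 3 / 2 * γ) := by rw [← Real.rpow_add hvpos]; ring_nf
      _ ≤ p := hpl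
  have htp : t ≤ p := by
    have : (t : ℝ) ≤ p := by
      refine le_trans ?_ hratio
      have : (1 : ℝ) ≤ (v : ℝ) ^ (γ / 2) := Real.one_le_rpow hv1 (by positivity)
      nlinarith
    exact_mod_cast this
  have hch : (((v : ℝ) ^ (γ / 2)) ^ t) ≤ (p.choose t : ℝ) := by
    have h1 : (p : ℝ) ^ t ≤ (t : ℝ) ^ t * (p.choose t : ℝ) := by exact_mod_cast pow_le_mul_choose htp
    have h2 : ((t : ℝ) * (v : ℝ) ^ (γ / 2)) ^ t ≤ (p : ℝ) ^ t := by gcongr
    rw [mul_pow] at h2
    exact le_of_mul_le_mul_left (h2.trans h1) (by positivity)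
  have hlog : Real.logb 2 (((v : ℝ) ^ (γ / 2)) ^ t) ≤ lg (p.choose t) := by
    unfold lg
    apply Real.logb_le_logb_of_le (by norm_num) (by positivity) hch
  refine le_trans ?_ hlog
  rw [Real.logb_pow, Real.logb_rpow_eq_mul_logb_of_pos hvpos]
  have hlb : (a : ℝ) / 2 ≤ Real.logb 2 v := by
    have h1 : ((Nat.log 2 v : ℕ) : ℝ) ≤ Real.logb 2 v := by
      rw [Real.le_logb_iff_rpow_le (by norm_num) hvpos, Real.rpow_natCast]
      exact_mod_cast Nat.pow_log_le_self 2 (by omega)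
    have h2 : 2 ≤ Nat.log 2 v := by
      apply (Nat.le_log_iff_pow_le (by norm_num) (by omega)).2
      omega
    have h2R : (2 : ℝ) ≤ (Nat.log 2 v : ℕ) := by exact_mod_cast h2
    rw [ha]; push_cast
    linarith
  have hkR : (k : ℝ) ≤ a * (t + 1) := by exact_mod_cast htk
  have hk1R : 4 * (a : ℝ) ≤ k := by exact_mod_cast hk1
  -- k ≤ 2 a t
  have hkt : (k : ℝ) ≤ 2 * a * t := by nlinarith
  have h5 : (t : ℝ) * (γ / 2 * (a / 2)) ≤ t * (γ / 2 * Real.logb 2 v) := by gcongr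
  nlinarith

end Pool.Agent.Hhelper86.HFact
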