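import Pool.Agent.Hhelper86.HFact.Hh

/-! From divisors with repetitions to distinct divisors. -/

namespace Pool.Agent.Hhelper86.HFact

open Finset

/-- value of a pair -/
def pval (p : ℕ × ℕ) : ℕ := 2 ^ p.2 * p.1

lemma merge_aux (R T : ℕ) : ∀ n : ℕ, ∀ L : Multiset (ℕ × ℕ), Multiset.card L = n →
    (∀ p ∈ L, p.1 ∣ R) → (L.map (fun p => 2 ^ p.2)).sum ≤ T →
    ∃ S : Finset ℕ, S.card ≤ n ∧ (∀ x ∈ S, ∃ d j, d ∣ R ∧ 2 ^ j ≤ T ∧ x = 2 ^ j * d) ∧
      ∑ x ∈ S, x = (L.map pval).sum := by
  classical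
  intro n
  induction n using Nat.strong_induction_on with
  | _ n ih =>
    intro L hL hd hT
    by_cases hnd : (L.map pval).Nodup
    · refine ⟨⟨L.map pval, hnd⟩, ?_, ?_, ?_⟩
      · simp [hL]
      · intro x hx
        have hx' : x ∈ L.map pval := hx
        obtain ⟨p, hp, rfl⟩ := Multiset.mem_map.1 hx'
        refine ⟨p.1, p.2, hd p hp, ?_, rfl⟩
        refine le_trans ?_ hT
        exact Multiset.single_le_sum (fun _ _ => Nat.zero_le _) _ (Multiset.mem_map_of_mem _ hp)
      · simp [Finset.sum]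
    · rw [Multiset.nodup_iff_ne_cons_cons] at hnd
      push Not at hnd
      obtain ⟨a, t, hat⟩ := hnd
      obtain ⟨p, hp, hpa, hpt⟩ := (Multiset.map_eq_cons pval L (a ::ₘ t) a).2 hat
      obtain ⟨q, hq, hqa, hqt⟩ := (Multiset.map_eq_cons pval (L.erase p) t a).2 hpt
      set L2 := (L.erase p).erase q with hL2
      have hLp : L = p ::ₘ q ::ₘ L2 := by
        rw [hL2, Multiset.cons_erase hq, Multiset.cons_erase hp]
      -- choose the element with the smaller exponent
      have hmain : ∀ p q : ℕ × ℕ, L = p ::ₘ q ::ₘ L2 → pval p = a → pval q = a → q.2 ≤ p.2 →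
          ∃ S : Finset ℕ, S.card ≤ n ∧ (∀ x ∈ S, ∃ d j, d ∣ R ∧ 2 ^ j ≤ T ∧ x = 2 ^ j * d) ∧
            ∑ x ∈ S, x = (L.map pval).sum := by
        intro p q hLpq hp hq hle
        have hcard : Multiset.card ((q.1, q.2 + 1) ::ₘ L2) < n := by
          rw [← hL, hLpq]; simp
        obtain ⟨S, hS1, hS2, hS3⟩ := ih _ hcard ((q.1, q.2 + 1) ::ₘ L2) rfl (by
          intro r hr
          rcases Multiset.mem_cons.1 hr with rfl | hr
          · exact hd q (by rw [hLpq]; simp)
          · exact hd r (by rw [hLpq]; simp [hr])) (by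
          refine le_trans ?_ hT
          rw [hLpq]
          simp only [Multiset.map_cons, Multiset.sum_cons]
          have h1 : 2 ^ q.2 ≤ 2 ^ p.2 := Nat.pow_le_pow_right (by norm_num) hle
          rw [pow_succ]
          omega)
        refine ⟨S, hS1.trans hcard.le, hS2, ?_⟩
        rw [hS3, hLpq]
        simp only [Multiset.map_cons, Multiset.sum_cons]
        have h2 : pval (q.1, q.2 + 1) = pval p + pval q := by
          have h3 : pval (q.1, q.2 + 1) = 2 * pval q := by
            simp only [pval]; rw [pow_succ]; ring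
          rw [h3, hp, hq]; ring
        rw [h2]; ring
      rcases le_total q.2 p.2 with hle | hle
      · exact hmain p q hLp hpa hqa hle
      · refine hmain q p ?_ hqa hpa hle
        rw [hLp]; exact Multiset.cons_swap _ _ _

lemma merge (R T s : ℕ) (hs : T ≤ 2 ^ s) (l : List ℕ) (hl : l.length ≤ T) (hd : ∀ d ∈ l, d ∣ R) :
    ∃ S : Finset ℕ, S.card ≤ T ∧ (∀ x ∈ S, x ∣ 2 ^ s * R) ∧ ∑ x ∈ S, x = l.sum := by
  obtain ⟨S, h1, h2, h3⟩ := merge_aux R T l.length
    ((l.map (fun d => ((d, 0) : ℕ × ℕ)) : List (ℕ × ℕ)) : Multiset (ℕ × ℕ)) (by simp) (by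
      intro p hp
      rw [Multiset.mem_coe, List.mem_map] at hp
      obtain ⟨d, hd', rfl⟩ := hp
      exact hd d hd') (by
      rw [Multiset.map_coe, List.map_map, Multiset.sum_coe]
      simp only [Function.comp_def, pow_zero, List.map_const', List.sum_replicate, smul_eq_mul, mul_one]
      exact hl)
  refine ⟨S, h1.trans hl, ?_, ?_⟩
  · intro x hx
    obtain ⟨d, j, hdR, hj, rfl⟩ := h2 x hx
    apply mul_dvd_mul _ hdR
    apply pow_dvd_pow
    exact (Nat.pow_le_pow_iff_right (by norm_num)).1 (hj.trans hs)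
  · rw [h3, Multiset.map_coe, List.map_map, Multiset.sum_coe]
    congr 1
    have : (pval ∘ fun d => ((d, 0) : ℕ × ℕ)) = id := by
      funext d; simp [pval]
    rw [this, List.map_id]

lemma exists_bits (s : ℕ) : ∀ q : ℕ, q < 2 ^ s → ∃ J : Finset ℕ, J ⊆ range s ∧ ∑ j ∈ J, 2 ^ j = q := by
  induction s with
  | zero =>
    intro q hq
    exact ⟨∅, by simp, by simpa using (by simpa using hq : q = 0).symm⟩
  | succ s ih =>
    intro q hq
    rcases lt_or_ge q (2 ^ s) with h | h
    · obtain ⟨J, hJ, hs⟩ := ih q h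
      exact ⟨J, hJ.trans (Finset.range_mono (Nat.le_succ s)), hs⟩
    · obtain ⟨J, hJ, hs⟩ := ih (q - 2 ^ s) (by rw [pow_succ] at hq; omega)
      have hnot : s ∉ J := fun h => by simpa using hJ h
      refine ⟨insert s J, ?_, ?_⟩
      · intro x hx
        rcases Finset.mem_insert.1 hx with rfl | hx
        · simp
        · have := Finset.mem_range.1 (hJ hx)
          exact Finset.mem_range.2 (by omega)
      · rw [Finset.sum_insert hnot, hs]; omega

/-- from `Hh` to distinct divisors of `2^s R` -/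
theorem distinct_of_Hh (R T s : ℕ) (hR : 0 < R) (hT : 1 ≤ T) (hs : T ≤ 2 ^ s) (h : Hh R T) :
    ∀ m ≤ 2 ^ s * R, ∃ S : Finset ℕ, S.card ≤ T + s ∧ (∀ x ∈ S, x ∣ 2 ^ s * R) ∧ ∑ x ∈ S, x = m := by
  classical
  intro m hm
  rcases hm.eq_or_lt with rfl | hlt
  · exact ⟨{2 ^ s * R}, by simp; omega, by simp, by simp⟩
  · obtain ⟨l, hl1, hl2, hl3⟩ := h (m % R) (Nat.mod_lt m hR).le
    obtain ⟨S, hS1, hS2, hS3⟩ := merge R T s hs l hl1 hl2
    have hq : m / R < 2 ^ s := by
      rw [Nat.div_lt_iff_lt_mul hR]; exact hlt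
    obtain ⟨J, hJ1, hJ2⟩ := exists_bits s (m / R) hq
    have hlt' : ∀ x ∈ S, x < R := by
      intro x hx
      have h1 : x ≤ ∑ x ∈ S, x := Finset.single_le_sum (f := fun x => x) (fun _ _ => Nat.zero_le _) hx
      rw [hS3, hl3] at h1
      exact lt_of_le_of_lt h1 (Nat.mod_lt m hR)
    have hdisj : Disjoint (J.image (fun j => 2 ^ j * R)) S := by
      rw [Finset.disjoint_left]
      intro x hx hxS
      rw [Finset.mem_image] at hx
      obtain ⟨j, -, rfl⟩ := hx
      have h2 := hlt' _ hxS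
      have h3 : R ≤ 2 ^ j * R := Nat.le_mul_of_pos_left R (by positivity)
      omega
    refine ⟨J.image (fun j => 2 ^ j * R) ∪ S, ?_, ?_, ?_⟩
    · refine (Finset.card_union_le _ _).trans ?_
      have h4 : (J.image (fun j => 2 ^ j * R)).card ≤ s := by
        refine Finset.card_image_le.trans ?_
        simpa using Finset.card_le_card hJ1
      omega
    · intro x hx
      rcases Finset.mem_union.1 hx with hx | hx
      · rw [Finset.mem_image] at hx
        obtain ⟨j, hj, rfl⟩ := hx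
        have := Finset.mem_range.1 (hJ1 hj)
        exact mul_dvd_mul_right (pow_dvd_pow 2 this.le) R
      · exact hS2 x hx
    · rw [Finset.sum_union hdisj, hS3, hl3, Finset.sum_image]
      · rw [← Finset.sum_mul, hJ2, mul_comm]
        exact Nat.div_add_mod m R
      · intro i _ j _ hij
        have h5 : 2 ^ i = 2 ^ j := Nat.eq_of_mul_eq_mul_right hR hij
        exact Nat.pow_right_injective le_rfl h5

end Pool.Agent.Hhelper86.HFact
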