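import Pool.Agent.Hhelper86.HFact.Level
import Pool.Agent.Hhelper86.HFact.Merge

namespace Pool.Agent.Hhelper86.HFact

open Filter Finset

lemma two_pow_dvd_factorial (a : ℕ) : 2 ^ a ∣ (2 * a).factorial := by
  induction a with
  | zero => simp
  | succ a ih =>
    have h1 : (2 * (a + 1)).factorial = 2 * ((a + 1) * (2 * a + 1)) * (2 * a).factorial := by
      rw [show 2 * (a + 1) = 2 * a + 1 + 1 by ring, Nat.factorial_succ, Nat.factorial_succ]
      ring
    rw [h1, pow_succ, mul_comm (2 ^ a) 2]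
    exact mul_dvd_mul (dvd_mul_right _ _) ih

lemma primorial_dvd_factorial' (y : ℕ) : primorial y ∣ y.factorial := by
  unfold primorial
  apply Finset.prod_primes_dvd
  · intro p hp
    exact (Finset.mem_filter.1 hp).2.prime
  · intro p hp
    rw [Finset.mem_filter, Finset.mem_range] at hp
    exact Nat.dvd_factorial hp.2.pos (by omega)

lemma block_dvd_factorial (a y D n : ℕ) (h : 2 * a + D * y ≤ n) :
    2 ^ a * primorial y ^ D ∣ n.factorial := by
  have h1 : primorial y ^ D ∣ (D * y).factorial := by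
    have h2 := Nat.prod_factorial_dvd_factorial_sum (range D) (fun _ => y)
    simp only [Finset.prod_const, Finset.card_range, Finset.sum_const, smul_eq_mul] at h2
    exact (pow_dvd_pow_of_dvd (primorial_dvd_factorial' y) D).trans h2
  have h3 : (2 * a).factorial * (D * y).factorial ∣ (2 * a + D * y).factorial :=
    Nat.factorial_mul_factorial_dvd_factorial_add _ _
  exact ((mul_dvd_mul (two_pow_dvd_factorial a) h1).trans h3).trans (Nat.factorial_dvd_factorial h)

set_option maxHeartbeats 1000000 in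
/-- every `m ≤ n!` is a sum of at most `n^ε` distinct divisors of `n!` -/
theorem main (ε : ℝ) (hε : 0 < ε) :
    ∀ᶠ n : ℕ in atTop, ∀ m ≤ n.factorial, ∃ S : Finset ℕ, (S.card : ℝ) ≤ (n : ℝ) ^ ε / 2 ∧
      (∀ x ∈ S, x ∣ n.factorial) ∧ ∑ x ∈ S, x = m := by
  set γ : ℝ := min ε 2 / 8 with hγdef
  have hγ : 0 < γ := by
    have : 0 < min ε 2 := lt_min hε (by norm_num)
    positivity
  have hγ1 : γ ≤ 1 / 4 := by
    have : min ε 2 ≤ 2 := min_le_right _ _
    rw [hγdef]; linarith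
  have hγε : 8 * γ ≤ ε := by
    have : min ε 2 ≤ ε := min_le_left _ _
    rw [hγdef]; linarith
  obtain ⟨D, A, hA1, hlevel⟩ := level γ hγ hγ1
  filter_upwards [eventually_ge_atTop 100, natlog_dom (40 * A) (γ / 2) (by positivity),
    natlog_dom 100 1 one_pos, pow_dom (8 * D) (1 - γ) 1 (by linarith),
    pow_dom 1 (7 / 2 * γ) 1 (by linarith), pow_dom 8 (7 / 2 * γ) ε (by linarith),
    natlog_dom 8 ε hε] with n hn h1 h2 h3 h4 h5 h6
  have hnR : (100 : ℝ) ≤ n := by exact_mod_cast hn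
  have hn1 : (1 : ℝ) ≤ n := le_trans (by norm_num) hnR
  have hnpos : (0 : ℝ) < n := lt_of_lt_of_le (by norm_num) hnR
  set a : ℕ := Nat.log 2 n + 1 with ha
  have haR : (a : ℝ) = ((Nat.log 2 n : ℕ) : ℝ) + 1 := by rw [ha]; push_cast; ring
  have hapos : (1 : ℝ) ≤ a := by rw [haR]; linarith [Nat.cast_nonneg (α := ℝ) (Nat.log 2 n)]
  rw [← haR] at h1 h2 h6
  rw [Real.rpow_one] at h2 h3
  rw [one_mul, Real.rpow_one] at h4
  have hna : n < 2 ^ a := Nat.lt_pow_succ_log_self (by norm_num) n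
  set v : ℕ := n / 4 with hv
  obtain ⟨T, hT, hTle⟩ := hlevel v (by omega)
  set y : ℕ := ⌊(v : ℝ) ^ (1 - γ)⌋₊ with hy
  have hvn : (v : ℝ) ≤ n := by exact_mod_cast Nat.div_le_self n 4
  have hyn : (y : ℝ) ≤ (n : ℝ) ^ (1 - γ) := by
    refine (Nat.floor_le (by positivity)).trans ?_
    apply Real.rpow_le_rpow (by positivity) hvn (by linarith)
  -- block
  have hblockR : (2 : ℝ) * (a + v) + D * y ≤ n := by
    have h7 : (D : ℝ) * y ≤ D * (n : ℝ) ^ (1 - γ) := by gcongr
    have h8 : (4 : ℝ) * v ≤ n := by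
      have : 4 * v ≤ n := Nat.mul_div_le n 4
      exact_mod_cast this
    linarith
  have hblock : 2 * (a + v) + D * y ≤ n := by exact_mod_cast hblockR
  have hdvd : 2 ^ a * MM γ D v ∣ n.factorial := by
    have := block_dvd_factorial (a + v) y D n hblock
    unfold MM
    rw [← hy, ← mul_assoc, ← pow_add]
    exact this
  obtain ⟨U, hU⟩ := hdvd
  have hfac : 0 < n.factorial := Nat.factorial_pos n
  have hUpos : 0 < U := by
    rcases Nat.eq_zero_or_pos U with h0 | h0
    · rw [h0, mul_zero] at hU; omega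
    · exact h0
  have hWpos : 0 < MM γ D v := by
    unfold MM
    exact Nat.mul_pos (by positivity) (pow_pos (primorial_pos _) _)
  have hW2 : 2 ^ v ≤ MM γ D v := Nat.le_mul_of_pos_right _ (pow_pos (primorial_pos _) _)
  have hUn : U ≤ n.factorial := by
    rw [hU]
    exact Nat.le_mul_of_pos_left U (by positivity)
  have hbound : U * n ^ (8 * a) ≤ MM γ D v ^ (8 * a + 1) := by
    have h7 : U ≤ 2 ^ (a * n) := by
      calc U ≤ n.factorial := hUn
        _ ≤ n ^ n := Nat.factorial_le_pow n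
        _ ≤ (2 ^ a) ^ n := Nat.pow_le_pow_left hna.le n
        _ = 2 ^ (a * n) := by rw [← pow_mul]
    have h8 : n ^ (8 * a) ≤ 2 ^ (a * (8 * a)) := by
      calc n ^ (8 * a) ≤ (2 ^ a) ^ (8 * a) := Nat.pow_le_pow_left hna.le _
        _ = 2 ^ (a * (8 * a)) := by rw [← pow_mul]
    have h9 : a * n + a * (8 * a) ≤ v * (8 * a + 1) := by
      have h10 : n ≤ 4 * v + 3 := by omega
      have h11 : 100 * a ≤ n := by exact_mod_cast h2
      have h12 : 1 ≤ a := Nat.succ_pos _
      nlinarith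
    calc U * n ^ (8 * a) ≤ 2 ^ (a * n) * 2 ^ (a * (8 * a)) := Nat.mul_le_mul h7 h8
      _ = 2 ^ (a * n + a * (8 * a)) := by rw [← pow_add]
      _ ≤ 2 ^ (v * (8 * a + 1)) := Nat.pow_le_pow_right (by norm_num) h9
      _ = (2 ^ v) ^ (8 * a + 1) := by rw [← pow_mul]
      _ ≤ MM γ D v ^ (8 * a + 1) := Nat.pow_le_pow_left hW2 _
  have hHh : Hh (MM γ D v * U) ((8 * a + 2) * T) := by
    apply Hh_smooth hWpos hT (8 * a) U hUpos _ hbound
    intro p hp hpU
    have : p ∣ n.factorial := hpU.trans (by rw [hU]; exact dvd_mul_left _ _)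
    exact (hp.dvd_factorial).1 this
  -- size of the number of terms
  have hT' : (((8 * a + 2) * T : ℕ) : ℝ) ≤ (n : ℝ) ^ (7 / 2 * γ) := by
    push_cast
    have h7 : (v : ℝ) ^ (3 * γ) ≤ (n : ℝ) ^ (3 * γ) := by
      apply Real.rpow_le_rpow (by positivity) hvn (by positivity)
    have h8 : (T : ℝ) ≤ A * (n : ℝ) ^ (3 * γ) := by
      refine hTle.trans ?_
      gcongr
    calc (8 * (a : ℝ) + 2) * T ≤ (10 * a) * (A * (n : ℝ) ^ (3 * γ)) := by
          gcongr
          linarith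
      _ ≤ (40 * A * a) * (n : ℝ) ^ (3 * γ) := by
          have h9 : 0 ≤ (a : ℝ) * A * (n : ℝ) ^ (3 * γ) := by positivity
          nlinarith
      _ ≤ (n : ℝ) ^ (γ / 2) * (n : ℝ) ^ (3 * γ) := by gcongr
      _ = (n : ℝ) ^ (7 / 2 * γ) := by rw [← Real.rpow_add hnpos]; ring_nf
  have hTn : (8 * a + 2) * T + 1 ≤ 2 ^ a := by
    have : (((8 * a + 2) * T : ℕ) : ℝ) ≤ n := hT'.trans h4
    have h7 : (8 * a + 2) * T ≤ n := by exact_mod_cast this
    omega
  have hR : 0 < MM γ D v * U := Nat.mul_pos hWpos hUpos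
  have hfin := distinct_of_Hh (MM γ D v * U) ((8 * a + 2) * T + 1) a hR (by omega) hTn
    (hHh.mono (Nat.le_succ _))
  have hfaceq : 2 ^ a * (MM γ D v * U) = n.factorial := by rw [hU]; ring
  rw [hfaceq] at hfin
  intro m hm
  obtain ⟨S, hS1, hS2, hS3⟩ := hfin m hm
  refine ⟨S, ?_, hS2, hS3⟩
  have h7 : (S.card : ℝ) ≤ (((8 * a + 2) * T : ℕ) : ℝ) + 1 + a := by exact_mod_cast hS1
  have h8 : (1 : ℝ) ≤ (n : ℝ) ^ (7 / 2 * γ) := Real.one_le_rpow hn1 (by positivity)
  linarith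

end Pool.Agent.Hhelper86.HFact
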