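import Pool.Agent.Hhelper86.HFact.Basic

namespace Pool.Agent.Hhelper86.HFact

open Set
open scoped Pointwise

variable {B : Set ℕ}

lemma IsTerm.mono {D D' y : ℕ} (h : IsTerm B D y) (hD : D ≤ D') : IsTerm B D' y := by
  obtain ⟨e, m, hm, hb, rfl⟩ := h
  exact ⟨e, m, hm.trans hD, hb, rfl⟩

lemma IsTerm.mul {D D' y y' : ℕ} (h : IsTerm B D y) (h' : IsTerm B D' y') :
    IsTerm B (D + D') (y * y') := by
  obtain ⟨e, m, hm, hb, rfl⟩ := h
  obtain ⟨e', m', hm', hb', rfl⟩ := h'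
  refine ⟨e + e', m ++ m', by simpa using Nat.add_le_add hm hm', ?_, ?_⟩
  · intro b hb2
    rcases List.mem_append.1 hb2 with h | h
    · exact hb b h
    · exact hb' b h
  · rw [List.prod_append, pow_add]; ring

lemma IsTerm.two_pow_mul {D y : ℕ} (k : ℕ) (h : IsTerm B D y) : IsTerm B D (2 ^ k * y) := by
  obtain ⟨e, m, hm, hb, rfl⟩ := h
  exact ⟨k + e, m, hm, hb, by rw [pow_add]; ring⟩

lemma PP_mono {N N' D D' : ℕ} (hN : N ≤ N') (hD : D ≤ D') : PP B N D ⊆ PP B N' D' := by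
  rintro x ⟨l, hl, ht, rfl⟩
  exact ⟨l, hl.trans hN, fun y hy => (ht y hy).mono hD, rfl⟩

lemma zero_mem_PP (N D : ℕ) : (0 : ℤ) ∈ PP B N D := ⟨[], by simp, by simp, by simp⟩

lemma PP_nonempty (N D : ℕ) : (PP B N D).Nonempty := ⟨0, zero_mem_PP N D⟩

lemma PP_add {N N' D : ℕ} {x y : ℤ} (hx : x ∈ PP B N D) (hy : y ∈ PP B N' D) :
    x + y ∈ PP B (N + N') D := by
  obtain ⟨l, hl, ht, rfl⟩ := hx
  obtain ⟨l', hl', ht', rfl⟩ := hy
  refine ⟨l ++ l', by simpa using Nat.add_le_add hl hl', ?_, by rw [List.sum_append]; push_cast; ring⟩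
  intro y hy
  rcases List.mem_append.1 hy with h | h
  · exact ht y h
  · exact ht' y h

lemma PP_two_pow_mul {N D : ℕ} (k : ℕ) {x : ℤ} (hx : x ∈ PP B N D) : 2 ^ k * x ∈ PP B N D := by
  obtain ⟨l, hl, ht, rfl⟩ := hx
  refine ⟨l.map (fun y => 2 ^ k * y), by simpa using hl, ?_, ?_⟩
  · intro y hy
    obtain ⟨z, hz, rfl⟩ := List.mem_map.1 hy
    exact (ht z hz).two_pow_mul k
  · rw [List.sum_map_mul_left]; push_cast; simp

lemma PP_mul {N N' D D' : ℕ} {x y : ℤ} (hx : x ∈ PP B N D) (hy : y ∈ PP B N' D') :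
    x * y ∈ PP B (N * N') (D + D') := by
  obtain ⟨l, hl, ht, rfl⟩ := hx
  obtain ⟨l', hl', ht', rfl⟩ := hy
  refine ⟨(l ×ˢ l').map (fun p => p.1 * p.2), ?_, ?_, ?_⟩
  · rw [List.length_map, List.length_product]
    exact Nat.mul_le_mul hl hl'
  · intro y hy
    obtain ⟨⟨a, b⟩, hp, rfl⟩ := List.mem_map.1 hy
    rw [List.mem_product] at hp
    exact (ht a hp.1).mul (ht' b hp.2)
  · have : ∀ l l' : List ℕ, ((l ×ˢ l').map (fun p => p.1 * p.2)).sum = l.sum * l'.sum := by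
      intro l l'
      induction l with
      | nil => simp
      | cons a t ih =>
        rw [List.product_cons, List.map_append, List.sum_append, ih, List.sum_cons, add_mul]
        congr 1
        rw [List.map_map]
        simp only [Function.comp_def]
        rw [List.sum_map_mul_left]
        simp
    rw [this]; push_cast; rfl

lemma mem_PP_of_mem {b : ℕ} (hb : b ∈ B) : (b : ℤ) ∈ PP B 1 1 :=
  ⟨[b], by simp, by
    intro y hy
    rw [List.mem_singleton] at hy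
    subst hy
    exact ⟨0, [y], by simp, by simpa using hb, by simp⟩, by simp⟩

/-- differences -/
def DD (B : Set ℕ) (N D : ℕ) : Set ℤ := {x | ∃ p ∈ PP B N D, ∃ q ∈ PP B N D, x = p - q}

lemma DD_mono {N N' D D' : ℕ} (hN : N ≤ N') (hD : D ≤ D') : DD B N D ⊆ DD B N' D' := by
  rintro x ⟨p, hp, q, hq, rfl⟩
  exact ⟨p, PP_mono hN hD hp, q, PP_mono hN hD hq, rfl⟩

lemma PP_subset_DD (N D : ℕ) : PP B N D ⊆ DD B N D := fun x hx => ⟨x, hx, 0, zero_mem_PP N D, by simp⟩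

lemma DD_nonempty (N D : ℕ) : (DD B N D).Nonempty := (PP_nonempty N D).mono (PP_subset_DD N D)

lemma DD_add {N N' D : ℕ} {x y : ℤ} (hx : x ∈ DD B N D) (hy : y ∈ DD B N' D) :
    x + y ∈ DD B (N + N') D := by
  obtain ⟨p, hp, q, hq, rfl⟩ := hx
  obtain ⟨p', hp', q', hq', rfl⟩ := hy
  exact ⟨p + p', PP_add hp hp', q + q', PP_add hq hq', by ring⟩

lemma DD_neg {N D : ℕ} {x : ℤ} (hx : x ∈ DD B N D) : -x ∈ DD B N D := by
  obtain ⟨p, hp, q, hq, rfl⟩ := hx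
  exact ⟨q, hq, p, hp, by ring⟩

lemma DD_sub {N N' D : ℕ} {x y : ℤ} (hx : x ∈ DD B N D) (hy : y ∈ DD B N' D) :
    x - y ∈ DD B (N + N') D := by
  rw [sub_eq_add_neg]
  exact DD_add hx (DD_neg hy)

lemma DD_mul {N N' D D' : ℕ} {x y : ℤ} (hx : x ∈ DD B N D) (hy : y ∈ DD B N' D') :
    x * y ∈ DD B (2 * (N * N')) (D + D') := by
  obtain ⟨p, hp, q, hq, rfl⟩ := hx
  obtain ⟨p', hp', q', hq', rfl⟩ := hy
  refine ⟨p * p' + q * q', ?_, p * q' + q * p', ?_, by ring⟩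
  · rw [two_mul]; exact PP_add (PP_mul hp hp') (PP_mul hq hq')
  · rw [two_mul]; exact PP_add (PP_mul hp hq') (PP_mul hq hp')

lemma DD_two_mul {N D : ℕ} {x : ℤ} (hx : x ∈ DD B N D) : 2 * x ∈ DD B N D := by
  obtain ⟨p, hp, q, hq, rfl⟩ := hx
  refine ⟨2 * p, by simpa using PP_two_pow_mul 1 hp, 2 * q, by simpa using PP_two_pow_mul 1 hq, by ring⟩

lemma zero_mem_DD (N D : ℕ) : (0 : ℤ) ∈ DD B N D := PP_subset_DD N D (zero_mem_PP N D)

/-- closure needed in Lemma Q -/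
lemma DD_closure (j : ℕ) : ∀ a ∈ DD B j j, ∀ a' ∈ DD B j j, ∀ b ∈ DD B j j, ∀ b' ∈ DD B j j,
    ∀ c : ℤ, (c = 0 ∨ c = 1) → ∀ x ∈ DD B j j, ∀ y ∈ DD B j j, ∀ z ∈ DD B j j,
    x + ((b - b') * y + (2 * (a - a') + c * (b - b')) * z) ∈ DD B (j + 16 * j ^ 2) (2 * j) := by
  intro a ha a' ha' b hb b' hb' c hc x hx y hy z hz
  have h1 : b - b' ∈ DD B (j + j) j := DD_sub hb hb'
  have h2 : a - a' ∈ DD B (j + j) j := DD_sub ha ha'
  have h3 : c * (b - b') ∈ DD B (j + j) j := by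
    rcases hc with rfl | rfl
    · rw [zero_mul]; exact zero_mem_DD _ _
    · rw [one_mul]; exact h1
  have h4 := DD_mul h1 hy
  have h5 := DD_mul (DD_add (DD_two_mul h2) h3) hz
  have h6 := DD_add h4 h5
  have h7 : x ∈ DD B j (j + j) := DD_mono le_rfl (by omega) hx
  refine DD_mono ?_ (by omega) (DD_add h7 h6)
  nlinarith [Nat.zero_le j]

/-- Ruzsa's triangle inequality modulo `2^k` -/
lemma ruzsa (B : Set ℕ) (N D k : ℕ) :
    cl (DD B N D) k * cl (PP B N D) k ≤ cl (PP B (2 * N) D) k ^ 2 := by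
  classical
  set f : ℤ → ZMod (2 ^ k) := fun x => (x : ZMod (2 ^ k)) with hf
  set P : Finset (ZMod (2 ^ k)) := (finite_image (PP B N D) k).toFinset with hP
  have h1 : cl (PP B N D) k = P.card := Set.ncard_eq_toFinset_card _ _
  have h2 : cl (DD B N D) k ≤ (P - P).card := by
    rw [cl, ← Set.ncard_coe_finset]
    apply Set.ncard_le_ncard _ (Set.toFinite _)
    rintro _ ⟨x, ⟨p, hp, q, hq, rfl⟩, rfl⟩
    rw [Finset.mem_coe, Finset.mem_sub]
    refine ⟨f p, ?_, f q, ?_, ?_⟩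
    · rw [hP, Set.Finite.mem_toFinset]; exact ⟨p, hp, rfl⟩
    · rw [hP, Set.Finite.mem_toFinset]; exact ⟨q, hq, rfl⟩
    · simp [hf]
  have h3 : (P + P).card ≤ cl (PP B (2 * N) D) k := by
    rw [cl, ← Set.ncard_coe_finset]
    apply Set.ncard_le_ncard _ (Set.toFinite _)
    intro z hz
    rw [Finset.mem_coe, Finset.mem_add] at hz
    obtain ⟨u, hu, v, hv, rfl⟩ := hz
    rw [hP, Set.Finite.mem_toFinset] at hu hv
    obtain ⟨p, hp, rfl⟩ := hu
    obtain ⟨q, hq, rfl⟩ := hv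
    refine ⟨p + q, ?_, by simp⟩
    rw [two_mul]; exact PP_add hp hq
  have h4 : (P - P).card * P.card ≤ (P + P).card * (P + P).card :=
    Finset.ruzsa_triangle_inequality_sub_add_add P P P
  calc cl (DD B N D) k * cl (PP B N D) k ≤ (P - P).card * P.card := by
        rw [h1]; exact Nat.mul_le_mul_right _ h2
    _ ≤ (P + P).card * (P + P).card := h4
    _ ≤ cl (PP B (2 * N) D) k ^ 2 := by rw [sq]; exact Nat.mul_le_mul h3 h3

end Pool.Agent.Hhelper86.HFact
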