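import Pool.Agent.Hhelper86.HFact.LemmaQ
import Pool.Agent.Hhelper86.HFact.Sums

namespace Pool.Agent.Hhelper86.HFact

open Set Filter Topology

/-- binary logarithm -/
noncomputable def lg (n : ℕ) : ℝ := Real.logb 2 n

lemma lg_nonneg (n : ℕ) : 0 ≤ lg n := by
  rcases Nat.eq_zero_or_pos n with rfl | h
  · simp [lg]
  · exact Real.logb_nonneg (by norm_num) (by exact_mod_cast h)

lemma lg_mono {m n : ℕ} (h : m ≤ n) : lg m ≤ lg n := by
  rcases Nat.eq_zero_or_pos m with rfl | hm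
  · simpa [lg] using lg_nonneg n
  · exact Real.logb_le_logb_of_le (by norm_num) (by exact_mod_cast hm) (by exact_mod_cast h)

lemma lg_mul {m n : ℕ} (hm : 0 < m) (hn : 0 < n) : lg (m * n) = lg m + lg n := by
  unfold lg
  push_cast
  exact Real.logb_mul (by positivity) (by positivity)

lemma lg_two_pow (k : ℕ) : lg (2 ^ k) = k := by
  unfold lg
  push_cast
  rw [Real.logb_pow, Real.logb_self_eq_one (by norm_num), mul_one]

lemma lg_two : lg 2 = 1 := by simpa using lg_two_pow 1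

lemma lg_cl_le (S : Set ℤ) (k : ℕ) : lg (cl S k) ≤ k := by
  rw [← lg_two_pow k]
  exact lg_mono (cl_le S k)

lemma lt_of_lg_lt {m n : ℕ} (h : lg m < lg n) : m < n := by
  by_contra hn
  push Not at hn
  exact absurd (lg_mono hn) (not_le.2 h)

lemma exists_lim (u : ℕ → ℝ) (C : ℝ) (h : ∀ i, 0 ≤ u i ∧ u i ≤ C) :
    ∃ L : ℝ, 0 ≤ L ∧ L ≤ C ∧ Tendsto u (hyperfilter ℕ) (𝓝 L) := by
  obtain ⟨L, hL, hlim⟩ := (isCompact_Icc (a := (0 : ℝ)) (b := C)).ultrafilter_le_nhds
    ((hyperfilter ℕ).map u) (by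
      rw [le_principal_iff]
      have h' : ∀ᶠ i in (hyperfilter ℕ : Filter ℕ), u i ∈ Set.Icc 0 C :=
        Filter.Eventually.of_forall (fun i => ⟨(h i).1, (h i).2⟩)
      exact h')
  exact ⟨L, hL.1, hL.2, hlim⟩

/-- normalised profile -/
noncomputable def phi (K : ℕ → ℕ) (B : ℕ → Set ℕ) (i j : ℕ) (t : ℝ) : ℝ :=
  lg (cl (PP (B i) j j) ⌊t * K i⌋₊) / K i

lemma phi_nonneg (K : ℕ → ℕ) (B : ℕ → Set ℕ) (i j : ℕ) (t : ℝ) : 0 ≤ phi K B i j t :=
  div_nonneg (lg_nonneg _) (Nat.cast_nonneg _)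

lemma phi_le (K : ℕ → ℕ) (B : ℕ → Set ℕ) (i j : ℕ) (t : ℝ) : phi K B i j t ≤ |t| := by
  unfold phi
  rcases Nat.eq_zero_or_pos (K i) with h | h
  · rw [h]; simp
  · rw [div_le_iff₀ (by exact_mod_cast h)]
    refine (lg_cl_le _ _).trans ?_
    rcases le_total 0 t with ht | ht
    · rw [abs_of_nonneg ht]
      exact Nat.floor_le (by positivity)
    · have : ⌊t * K i⌋₊ = 0 := Nat.floor_of_nonpos (mul_nonpos_of_nonpos_of_nonneg ht (Nat.cast_nonneg _))
      rw [this]
      simp only [Nat.cast_zero]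
      positivity

lemma phi_mono_j (K : ℕ → ℕ) (B : ℕ → Set ℕ) (i : ℕ) {j j' : ℕ} (h : j ≤ j') (t : ℝ) :
    phi K B i j t ≤ phi K B i j' t := by
  unfold phi
  exact div_le_div_of_nonneg_right (lg_mono (cl_mono (PP_mono h h) _)) (Nat.cast_nonneg _)

lemma phi_super (K : ℕ → ℕ) (B : ℕ → Set ℕ) (i j : ℕ) {t u : ℝ} (ht : 0 ≤ t) (hu : 0 ≤ u) :
    phi K B i j t + phi K B i j u ≤ phi K B i (2 * j) (t + u) := by
  unfold phi
  rw [← add_div]
  apply div_le_div_of_nonneg_right _ (Nat.cast_nonneg _)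
  rw [← lg_mul (cl_pos (PP_nonempty _ _) _) (cl_pos (PP_nonempty _ _) _)]
  apply lg_mono
  have h1 : cl (PP (B i) j j) ⌊t * K i⌋₊ * cl (PP (B i) j j) ⌊u * K i⌋₊
      ≤ cl (PP (B i) (2 * j) (2 * j)) (⌊t * K i⌋₊ + ⌊u * K i⌋₊) := by
    apply cl_shift
    intro a ha x hx
    rw [two_mul]
    exact PP_mono le_rfl (by omega) (PP_add ha (PP_two_pow_mul _ hx))
  refine h1.trans (cl_mono_right _ ?_)
  apply Nat.le_floor
  push_cast
  have h2 := Nat.floor_le (show 0 ≤ t * K i by positivity)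
  have h3 := Nat.floor_le (show 0 ≤ u * K i by positivity)
  linarith

set_option maxHeartbeats 4000000 in
/-- **Growth theorem.** -/
theorem growth (ε δ : ℝ) (hε : 0 < ε) (hε1 : ε ≤ 1) (hδ : 0 < δ) (hδ1 : δ ≤ 1) :
    ∃ J m K0 : ℕ, 0 < m ∧ ∀ K ≥ K0, ∀ B : Set ℕ,
      (∀ k : ℕ, K ≤ m * k → k ≤ K → ε * k ≤ lg (cl ((fun n : ℕ => (n : ℤ)) '' B) k)) →
      (1 - δ) * K ≤ lg (cl (PP B J J) K) := by
  classical
  by_contra hcon
  push Not at hcon
  have hcon' : ∀ i : ℕ, ∃ K : ℕ, i + 1 ≤ K ∧ ∃ B : Set ℕ,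
      (∀ k : ℕ, K ≤ (i + 1) * k → k ≤ K → ε * k ≤ lg (cl ((fun n : ℕ => (n : ℤ)) '' B) k)) ∧
      lg (cl (PP B (i + 1) (i + 1)) K) < (1 - δ) * K := by
    intro i
    obtain ⟨K, hK, B, hB, hlt⟩ := hcon (i + 1) (i + 1) (i + 1) (Nat.succ_pos i)
    exact ⟨K, hK, B, hB, hlt⟩
  choose K hK B hB hneg using hcon'
  have hlim : ∀ j : ℕ, ∀ t : ℝ, ∃ L : ℝ, 0 ≤ L ∧ L ≤ |t| ∧
      Tendsto (fun i => phi K B i j t) (hyperfilter ℕ) (𝓝 L) :=
    fun j t => exists_lim _ _ (fun i => ⟨phi_nonneg K B i j t, phi_le K B i j t⟩)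
  choose L hL0 hL1 hLt using hlim
  have hLmono : ∀ {j j' : ℕ} (t : ℝ), j ≤ j' → L j t ≤ L j' t := by
    intro j j' t h
    exact le_of_tendsto_of_tendsto' (hLt j t) (hLt j' t) (fun i => phi_mono_j K B i h t)
  have hLsuper : ∀ (j : ℕ) {t u : ℝ}, 0 ≤ t → 0 ≤ u → L j t + L j u ≤ L (2 * j) (t + u) := by
    intro j t u ht hu
    exact le_of_tendsto_of_tendsto' ((hLt j t).add (hLt j u)) (hLt _ _)
      (fun i => phi_super K B i j ht hu)
  set F : ℝ → ℝ := fun t => ⨆ j, L j t with hF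
  have hbdd : ∀ t, BddAbove (Set.range (fun j => L j t)) := by
    intro t
    refine ⟨|t|, ?_⟩
    rintro _ ⟨j, rfl⟩
    exact hL1 j t
  have hLF : ∀ j t, L j t ≤ F t := fun j t => le_ciSup (hbdd t) j
  have hF0 : ∀ t, 0 ≤ F t := fun t => (hL0 0 t).trans (hLF 0 t)
  have hFsuper : ∀ t u : ℝ, 0 ≤ t → 0 ≤ u → F t + F u ≤ F (t + u) := by
    intro t u ht hu
    have h1 : ∀ j, L j t ≤ F (t + u) - F u := by
      intro j
      rw [le_sub_iff_add_le, ← le_sub_iff_add_le']
      apply ciSup_le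
      intro j'
      rw [le_sub_iff_add_le']
      have h2 := hLmono t (le_max_left j j')
      have h3 := hLmono u (le_max_right j j')
      have h4 := hLsuper (max j j') ht hu
      have h5 := hLF (2 * max j j') (t + u)
      linarith
    have h6 : F t ≤ F (t + u) - F u := ciSup_le h1
    linarith
  -- eventually statements
  have hev_large : ∀ C : ℕ, ∀ᶠ i in (hyperfilter ℕ : Filter ℕ), C ≤ i := by
    intro C
    exact (Nat.hyperfilter_le_atTop) (Filter.eventually_ge_atTop C)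
  -- lower bound for `F`
  have hFlow : ∀ t : ℝ, 0 < t → t ≤ 1 → ε * t ≤ F t := by
    intro t ht ht1
    refine le_trans ?_ (hLF 1 t)
    -- phi i 1 t ≥ ε t - ε / K i
    have h1 : ∀ᶠ i in (hyperfilter ℕ : Filter ℕ), ε * t - ε / (K i) ≤ phi K B i 1 t := by
      filter_upwards [hev_large (⌈2 / t⌉₊)] with i hi
      have hKi : 0 < (K i : ℝ) := by
        have := hK i
        exact_mod_cast (by omega : 0 < K i)
      have hfl : t * K i - 1 < (⌊t * K i⌋₊ : ℝ) := Nat.sub_one_lt_floor _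
      have hfl2 : (⌊t * K i⌋₊ : ℝ) ≤ t * K i := Nat.floor_le (by positivity)
      have hi2 : 2 / t ≤ i := (Nat.le_ceil _).trans (by exact_mod_cast hi)
      have hKi2 : (i : ℝ) + 1 ≤ K i := by exact_mod_cast hK i
      have hk1 : K i ≤ (i + 1) * ⌊t * K i⌋₊ := by
        have h2 : 2 ≤ t * i := by
          rw [div_le_iff₀ ht] at hi2; linarith
        have h3 : (K i : ℝ) ≤ (i + 1) * ⌊t * K i⌋₊ := by
          have h4 : t * K i ≥ 2 := by nlinarith
          have h5 : t * K i / 2 ≤ (⌊t * K i⌋₊ : ℝ) := by linarith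
          calc (K i : ℝ) ≤ (t * i) * K i / 2 := by nlinarith
            _ = i * (t * K i / 2) := by ring
            _ ≤ (i + 1) * (t * K i / 2) := by nlinarith
            _ ≤ (i + 1) * ⌊t * K i⌋₊ := by gcongr
        exact_mod_cast h3
      have hk2 : ⌊t * K i⌋₊ ≤ K i := by
        have : (⌊t * K i⌋₊ : ℝ) ≤ K i := by nlinarith
        exact_mod_cast this
      have h6 := hB i _ hk1 hk2
      unfold phi
      rw [le_div_iff₀ hKi]
      have h7 : lg (cl ((fun n : ℕ => (n : ℤ)) '' B i) ⌊t * K i⌋₊)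
          ≤ lg (cl (PP (B i) 1 1) ⌊t * K i⌋₊) := by
        apply lg_mono
        apply cl_mono
        rintro _ ⟨b, hb, rfl⟩
        exact mem_PP_of_mem hb
      have h8 : (ε * t - ε / K i) * K i = ε * (t * K i - 1) := by
        field_simp
      rw [h8]
      nlinarith
    have h2 : Tendsto (fun i => ε * t - ε / (K i : ℝ)) (hyperfilter ℕ) (𝓝 (ε * t - 0)) := by
      apply Tendsto.sub tendsto_const_nhds
      have h3 : Tendsto (fun i => (K i : ℝ)) atTop atTop := by
        apply tendsto_atTop_mono (f := fun i : ℕ => (i : ℝ))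
        · intro i
          have := hK i
          exact_mod_cast (by omega : i ≤ K i)
        · exact tendsto_natCast_atTop_atTop
      exact (Tendsto.div_atTop tendsto_const_nhds h3).mono_left Nat.hyperfilter_le_atTop
    rw [sub_zero] at h2
    exact le_of_tendsto_of_tendsto h2 (hLt 1 t) h1
  -- upper bound at 1
  have hF1 : F 1 ≤ 1 - δ := by
    apply ciSup_le
    intro j
    apply le_of_tendsto (hLt j 1)
    filter_upwards [hev_large j] with i hi
    have hKi : 0 < (K i : ℝ) := by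
      have := hK i
      exact_mod_cast (by omega : 0 < K i)
    unfold phi
    rw [div_le_iff₀ hKi, one_mul, Nat.floor_natCast]
    refine le_trans (lg_mono (cl_mono (PP_mono ?_ ?_) _)) (hneg i).le <;> omega
  -- slope
  set Sset : Set ℝ := (fun t => F t / t) '' Set.Ioc 0 1 with hSset
  set s : ℝ := sInf Sset with hs
  have hSbdd : BddBelow Sset := by
    refine ⟨ε, ?_⟩
    rintro _ ⟨t, ht, rfl⟩
    simp only
    rw [le_div_iff₀ ht.1]
    exact hFlow t ht.1 ht.2
  have hSne : Sset.Nonempty := ⟨_, 1, ⟨by norm_num, le_rfl⟩, rfl⟩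
  have hsε : ε ≤ s := by
    apply le_csInf hSne
    rintro _ ⟨t, ht, rfl⟩
    simp only
    rw [le_div_iff₀ ht.1]
    exact hFlow t ht.1 ht.2
  have hsF : ∀ t : ℝ, 0 ≤ t → t ≤ 1 → s * t ≤ F t := by
    intro t ht ht1
    rcases ht.eq_or_lt with rfl | hpos
    · simpa using hF0 0
    · rw [← le_div_iff₀ hpos]
      exact csInf_le hSbdd ⟨t, ⟨hpos, ht1⟩, rfl⟩
  have hs1 : s ≤ 1 - δ := by
    have := hsF 1 (by norm_num) le_rfl
    linarith
  set θ : ℝ := ε * δ / 200 with hθ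
  have hθpos : 0 < θ := by positivity
  obtain ⟨_, ⟨T, hT, rfl⟩, hTlt⟩ := exists_lt_of_csInf_lt hSne (show sInf Sset < s + θ by linarith)
  obtain ⟨hT0, hT1⟩ := hT
  simp only at hTlt
  rw [div_lt_iff₀ hT0] at hTlt
  have hFup : ∀ t : ℝ, 0 ≤ t → t ≤ T → F t ≤ s * t + θ * T := by
    intro t ht htT
    have h1 := hFsuper t (T - t) ht (by linarith)
    have h2 := hsF (T - t) (by linarith) (by linarith)
    rw [add_sub_cancel] at h1
    nlinarith
  -- the grid
  set M : ℕ := ⌈1 / θ⌉₊ with hM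
  have hMpos : 0 < M := Nat.ceil_pos.2 (by positivity)
  have hMθ : 1 / (M : ℝ) ≤ θ := by
    rw [div_le_iff₀ (by exact_mod_cast hMpos)]
    have := Nat.le_ceil (1 / θ)
    rw [← hM, div_le_iff₀ hθpos] at this
    linarith
  set g : ℕ → ℝ := fun l => l * T / M with hg
  have hMR : 0 < (M : ℝ) := by exact_mod_cast hMpos
  have hg0 : ∀ l, 0 ≤ g l := fun l => by simp only [hg]; positivity
  have hgT : ∀ l, l ≤ M → g l ≤ T := by
    intro l hl
    simp only [hg]
    rw [div_le_iff₀ hMR, mul_comm]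
    have : (l : ℝ) ≤ M := by exact_mod_cast hl
    nlinarith
  have hθT : 0 < θ * T := by positivity
  obtain ⟨j, hj⟩ : ∃ j : ℕ, ∀ l ∈ Finset.range (M + 1), F (g l) - θ * T < L j (g l) := by
    have h1 : ∀ l : ℕ, ∃ j : ℕ, F (g l) - θ * T < L j (g l) := by
      intro l
      exact exists_lt_of_lt_ciSup (show F (g l) - θ * T < ⨆ j, L j (g l) by
        have : F (g l) = ⨆ j, L j (g l) := rfl
        rw [← this]; linarith)
    choose jj hjj using h1
    refine ⟨(Finset.range (M + 1)).sup jj, ?_⟩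
    intro l hl
    exact (hjj l).trans_le (hLmono _ (Finset.le_sup hl))
  set N' : ℕ := j + 16 * j ^ 2 with hN'
  set j3 : ℕ := 2 * N' with hj3
  -- choose the index
  have hev1 : ∀ᶠ i in (hyperfilter ℕ : Filter ℕ), ∀ l ∈ Finset.range (M + 1),
      F (g l) - θ * T < phi K B i j (g l) := by
    rw [Filter.eventually_all_finset]
    intro l hl
    exact (hLt j (g l)).eventually (lt_mem_nhds (hj l hl))
  have hev2 : ∀ᶠ i in (hyperfilter ℕ : Filter ℕ), ∀ l ∈ Finset.range (M + 1),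
      2 * phi K B i j3 (g l) - phi K B i j (g l) < F (g l) + θ * T := by
    rw [Filter.eventually_all_finset]
    intro l hl
    have h1 : Tendsto (fun i => 2 * phi K B i j3 (g l) - phi K B i j (g l)) (hyperfilter ℕ)
        (𝓝 (2 * L j3 (g l) - L j (g l))) := ((hLt j3 (g l)).const_mul 2).sub (hLt j (g l))
    have h2 := hLF j3 (g l)
    have h3 := hj l hl
    exact h1.eventually_lt_const (by linarith)
  obtain ⟨i, hi1, hi2, hi3⟩ := (hev1.and (hev2.and (hev_large ⌈40 / (ε * δ * T)⌉₊))).exists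
  set κ : ℝ := (K i : ℝ) with hκ
  have hκbig : 40 ≤ ε * δ * T * κ := by
    have h1 : 40 / (ε * δ * T) ≤ i := (Nat.le_ceil _).trans (by exact_mod_cast hi3)
    have h2 : (i : ℝ) ≤ κ := by
      have := hK i
      rw [hκ]
      exact_mod_cast (by omega : i ≤ K i)
    rw [div_le_iff₀ (by positivity)] at h1
    have h3 : (i : ℝ) * (ε * δ * T) ≤ κ * (ε * δ * T) := by gcongr
    linarith
  have hκpos : 0 < κ := by
    have := hK i
    rw [hκ]
    exact_mod_cast (by omega : 0 < K i)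
  set E : ℝ := θ * T * κ with hE
  have hEpos : 0 < E := by positivity
  set A : Set ℤ := DD (B i) j j with hA
  set A' : Set ℤ := DD (B i) N' (2 * j) with hA'
  have hs01 : s ≤ 1 := by linarith
  have hs0 : 0 < s := by linarith
  have hTκ : 0 < T * κ := by positivity
  have hTM : T * κ / M ≤ E := by
    have : T * κ / M = (1 / M) * (T * κ) := by ring
    rw [this, hE]
    calc (1 / M) * (T * κ) ≤ θ * (T * κ) := by gcongr
      _ = θ * T * κ := by ring
  have hlowA : ∀ k : ℕ, (k : ℝ) ≤ T * κ → s * k - 2 * E ≤ lg (cl A k) := by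
    intro k hk
    set l : ℕ := ⌊k * M / (T * κ)⌋₊ with hl
    have hl1 : (l : ℝ) ≤ k * M / (T * κ) := Nat.floor_le (by positivity)
    have hl2 : k * M / (T * κ) - 1 < (l : ℝ) := Nat.sub_one_lt_floor _
    have hlM : l ≤ M := by
      have : (l : ℝ) ≤ M := by
        refine hl1.trans ?_
        rw [div_le_iff₀ hTκ, mul_comm (k : ℝ)]
        gcongr
      exact_mod_cast this
    have h1 := hi1 l (Finset.mem_range.2 (by omega))
    have h2 : g l * κ ≤ k := by
      simp only [hg]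
      rw [le_div_iff₀ hTκ] at hl1
      rw [div_mul_eq_mul_div, div_le_iff₀ hMR]
      linarith
    have h3 : k - E ≤ g l * κ := by
      have h4 : (k : ℝ) - T * κ / M ≤ g l * κ := by
        simp only [hg]
        rw [sub_lt_iff_lt_add, div_lt_iff₀ hTκ] at hl2
        rw [sub_le_iff_le_add, div_mul_eq_mul_div, ← add_div, le_div_iff₀ hMR]
        nlinarith
      linarith
    have h5 : ⌊g l * κ⌋₊ ≤ k := Nat.floor_le_of_le h2
    unfold phi at h1
    rw [lt_div_iff₀ hκpos] at h1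
    have h6 : lg (cl (PP (B i) j j) ⌊g l * κ⌋₊) ≤ lg (cl A k) :=
      lg_mono ((cl_mono_right _ h5).trans (cl_mono (PP_subset_DD _ _) _))
    have h7 := hsF (g l) (hg0 l) ((hgT l hlM).trans hT1)
    have h8 : s * (k - E) ≤ s * (g l * κ) := by gcongr
    have h9 : s * (g l * κ) ≤ F (g l) * κ := by
      calc s * (g l * κ) = (s * g l) * κ := by ring
        _ ≤ F (g l) * κ := by gcongr
    have h10 : s * E ≤ E := by nlinarith
    have h11 : (F (g l) - θ * T) * κ = F (g l) * κ - E := by rw [hE]; ring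
    rw [h11] at h1
    linarith [h1, h6, h8, h9, h10]
  have hupA' : ∀ k : ℕ, (k : ℝ) ≤ T * κ → lg (cl A' k) ≤ s * k + 3 * E := by
    intro k hk
    set l : ℕ := ⌈k * M / (T * κ)⌉₊ with hl
    have hl1 : k * M / (T * κ) ≤ (l : ℝ) := Nat.le_ceil _
    have hl2 : (l : ℝ) < k * M / (T * κ) + 1 := Nat.ceil_lt_add_one (by positivity)
    have hlM : l ≤ M := by
      apply Nat.ceil_le.2
      rw [div_le_iff₀ hTκ, mul_comm (k : ℝ)]
      gcongr
    have h1 := hi2 l (Finset.mem_range.2 (by omega))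
    have h2 : (k : ℝ) ≤ g l * κ := by
      simp only [hg]
      rw [div_le_iff₀ hTκ] at hl1
      rw [div_mul_eq_mul_div, le_div_iff₀ hMR]
      linarith
    have h3 : g l * κ ≤ k + E := by
      have h4 : g l * κ ≤ k + T * κ / M := by
        simp only [hg]
        rw [← sub_lt_iff_lt_add, lt_div_iff₀ hTκ] at hl2
        rw [← sub_le_iff_le_add, div_mul_eq_mul_div, ← sub_div, div_le_iff₀ hMR]
        nlinarith
      linarith
    have h5 : k ≤ ⌊g l * κ⌋₊ := Nat.le_floor h2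
    have hruz := ruzsa (B i) N' (2 * j) ⌊g l * κ⌋₊
    have h6 : lg (cl A' k) ≤ lg (cl A' ⌊g l * κ⌋₊) := lg_mono (cl_mono_right _ h5)
    have h7 : lg (cl A' ⌊g l * κ⌋₊) + lg (cl (PP (B i) j j) ⌊g l * κ⌋₊)
        ≤ 2 * lg (cl (PP (B i) j3 j3) ⌊g l * κ⌋₊) := by
      have hp1 : 0 < cl A' ⌊g l * κ⌋₊ := cl_pos (DD_nonempty _ _) _
      have hp2 : 0 < cl (PP (B i) j j) ⌊g l * κ⌋₊ := cl_pos (PP_nonempty _ _) _
      have hp3 : 0 < cl (PP (B i) j3 j3) ⌊g l * κ⌋₊ := cl_pos (PP_nonempty _ _) _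
      rw [← lg_mul hp1 hp2, two_mul, ← lg_mul hp3 hp3, ← sq]
      apply lg_mono
      calc cl A' ⌊g l * κ⌋₊ * cl (PP (B i) j j) ⌊g l * κ⌋₊
          ≤ cl A' ⌊g l * κ⌋₊ * cl (PP (B i) N' (2 * j)) ⌊g l * κ⌋₊ := by
            apply Nat.mul_le_mul_left
            apply cl_mono
            apply PP_mono <;> omega
        _ ≤ cl (PP (B i) (2 * N') (2 * j)) ⌊g l * κ⌋₊ ^ 2 := hruz
        _ ≤ cl (PP (B i) j3 j3) ⌊g l * κ⌋₊ ^ 2 := by
            apply Nat.pow_le_pow_left
            apply cl_mono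
            apply PP_mono
            · exact le_rfl
            · rw [hj3, hN']; nlinarith [Nat.zero_le j]
    unfold phi at h1
    have h8 : 2 * lg (cl (PP (B i) j3 j3) ⌊g l * κ⌋₊) - lg (cl (PP (B i) j j) ⌊g l * κ⌋₊)
        < (F (g l) + θ * T) * κ := by
      have h9 : 2 * (lg (cl (PP (B i) j3 j3) ⌊g l * κ⌋₊) / κ) - lg (cl (PP (B i) j j) ⌊g l * κ⌋₊) / κ
          = (2 * lg (cl (PP (B i) j3 j3) ⌊g l * κ⌋₊) - lg (cl (PP (B i) j j) ⌊g l * κ⌋₊)) / κ := by ring
      rw [h9, div_lt_iff₀ hκpos] at h1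
      exact h1
    have h10 := hFup (g l) (hg0 l) (hgT l hlM)
    have h11 : (F (g l) + θ * T) * κ ≤ (s * g l + θ * T + θ * T) * κ := by gcongr
    have h12 : (s * g l + θ * T + θ * T) * κ = s * (g l * κ) + 2 * E := by rw [hE]; ring
    have h13 : s * (g l * κ) ≤ s * (k + E) := by gcongr
    have h14 : s * E ≤ E := by nlinarith
    linarith [h6, h7, h8, h11, h12, h13, h14]
  -- final choice of parameters
  set k : ℕ := ⌊T * κ / 2⌋₊ with hk
  set I : ℕ := ⌊δ * T * κ / 8⌋₊ with hI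
  have hk1 : (k : ℝ) ≤ T * κ / 2 := Nat.floor_le (by positivity)
  have hk2 : T * κ / 2 - 1 < (k : ℝ) := Nat.sub_one_lt_floor _
  have hI1 : (I : ℝ) ≤ δ * T * κ / 8 := Nat.floor_le (by positivity)
  have hI2 : δ * T * κ / 8 - 1 < (I : ℝ) := Nat.sub_one_lt_floor _
  have hδT : δ * T * κ ≤ T * κ := by nlinarith
  have hIk : I ≤ k := Nat.floor_le_floor (by linarith)
  have hεδ : ε * δ * T * κ ≤ δ * T * κ := by
    have : 0 < δ * T * κ := by positivity
    nlinarith
  have hEval : E = ε * δ * T * κ / 200 := by rw [hE, hθ]; ring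
  have hsI : ε * δ * T * κ / 8 - 1 ≤ s * I := by
    have h1 : ε * I ≤ s * I := by gcongr
    have h2 : ε * (δ * T * κ / 8 - 1) ≤ ε * I := by gcongr
    nlinarith
  have hpA : ∀ k, 0 < cl A k := fun k => cl_pos (DD_nonempty _ _) k
  have hpA' : ∀ k, 0 < cl A' k := fun k => cl_pos (DD_nonempty _ _) k
  have key := lemmaQ A A' k I hIk
    (DD_closure j)
    (by
      intro a ha a' ha' b hb b' hb' x hx y hy z hz
      have h1 : b - b' ∈ DD (B i) (j + j) j := DD_sub hb hb'
      have h2 : a - a' ∈ DD (B i) (j + j) j := DD_sub ha ha'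
      have h4 := DD_mul h1 hy
      have h5 := DD_mul h2 hz
      have h6 := DD_add h4 h5
      have h7 : x ∈ DD (B i) j (j + j) := DD_mono le_rfl (by omega) hx
      refine DD_mono ?_ (by omega) (DD_add h7 h6)
      rw [hN']
      nlinarith [Nat.zero_le j])
    (by
      intro i' hi'
      apply lt_of_lg_lt
      rw [lg_mul (hpA _) (Nat.mul_pos (hpA _) (hpA _)), lg_mul (hpA _) (hpA _)]
      have hi'R : (i' : ℝ) ≤ I := by exact_mod_cast hi'.le
      have h1 := hupA' (k + I + i') (by push_cast; linarith)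
      have h2 := hlowA i' (by linarith)
      have h3 := hlowA (k + I) (by push_cast; linarith)
      have h4 := hlowA I (by linarith)
      push_cast at h1 h3
      have h5 : 9 * E < s * I := by rw [hEval]; linarith
      nlinarith)
    (by
      by_contra hlt
      push Not at hlt
      have h1 : cl A I ≤ 1 := by omega
      have h2 : lg (cl A I) ≤ 0 := by
        have := lg_mono h1
        simpa [lg] using this
      have h3 := hlowA I (by linarith)
      have h5 : 9 * E < s * I := by rw [hEval]; linarith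
      linarith)
  obtain ⟨i', hi', hfin⟩ := key
  have hi'R : (i' : ℝ) ≤ I := by exact_mod_cast hi'.le
  have h1 := hupA' (k + i') (by push_cast; linarith)
  have h2 := hlowA i' (by linarith)
  have h3 := hlowA k (by linarith)
  have h4 := hlowA I (by linarith)
  push_cast at h1
  rcases le_total (cl A k * cl A I) (2 ^ (k - I)) with hmin | hmin
  · rw [min_eq_left hmin] at hfin
    have h6 := lg_mono hfin
    rw [lg_mul (hpA _) (Nat.mul_pos (hpA _) (hpA _)), lg_mul (hpA _) (hpA _),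
      lg_mul (by norm_num) (hpA' _), lg_two] at h6
    have h5 : 9 * E + 1 < s * I := by rw [hEval]; linarith
    nlinarith
  · rw [min_eq_right hmin] at hfin
    have h6 := lg_mono hfin
    rw [lg_mul (hpA _) (by positivity), lg_two_pow, lg_mul (by norm_num) (hpA' _), lg_two] at h6
    have h7 : ((k - I : ℕ) : ℝ) = k - I := by
      rw [Nat.cast_sub hIk]
    rw [h7] at h6
    have h8 : (1 - s) * k ≤ I + 5 * E + 1 := by nlinarith
    have h9 : δ * k ≤ (1 - s) * k := by
      have : 0 ≤ (k : ℝ) := Nat.cast_nonneg _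
      nlinarith
    have h10 : δ * (T * κ / 2 - 1) ≤ δ * k := by gcongr
    have h11 : 5 * E ≤ δ * T * κ / 40 := by rw [hEval]; linarith
    nlinarith

end Pool.Agent.Hhelper86.HFact
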