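import Mathlib

/-! Sums of divisors with repetitions. -/

namespace Pool.Agent.Hhelper86.HFact

/-- every `m ≤ M` is a sum of at most `T` divisors of `M`, repetitions allowed -/
def Hh (M T : ℕ) : Prop :=
  ∀ m ≤ M, ∃ l : List ℕ, l.length ≤ T ∧ (∀ d ∈ l, d ∣ M) ∧ l.sum = m

lemma Hh_trivial (M : ℕ) : Hh M M := by
  intro m hm
  refine ⟨List.replicate m 1, by simpa using hm, ?_, by simp⟩
  intro d hd
  rw [List.eq_of_mem_replicate hd]
  exact one_dvd M

lemma Hh.mono {M T T' : ℕ} (h : Hh M T) (hT : T ≤ T') : Hh M T' := by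
  intro m hm
  obtain ⟨l, h1, h2, h3⟩ := h m hm
  exact ⟨l, h1.trans hT, h2, h3⟩

/-- one mixed radix step -/
lemma Hh_step {W V u T T' : ℕ} (hu : 0 < u) (huW : u ≤ W) (h : Hh W T) (h' : Hh V T')
    (hWV : W ∣ V * u) : Hh (V * u) (T + T') := by
  intro m hm
  have h1 : m % u ≤ W := (Nat.mod_lt m hu).le.trans huW
  have h2 : m / u ≤ V := by
    rw [Nat.div_le_iff_le_mul_add_pred hu]
    have : V * u = u * V := mul_comm _ _
    omega
  obtain ⟨l1, hl1, hd1, hs1⟩ := h _ h1
  obtain ⟨l2, hl2, hd2, hs2⟩ := h' _ h2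
  refine ⟨l1 ++ l2.map (fun d => d * u), ?_, ?_, ?_⟩
  · rw [List.length_append, List.length_map]
    exact Nat.add_le_add hl1 hl2
  · intro d hd
    rcases List.mem_append.1 hd with hd | hd
    · exact (hd1 d hd).trans hWV
    · obtain ⟨e, he, rfl⟩ := List.mem_map.1 hd
      exact mul_dvd_mul_right (hd2 e he) u
  · rw [List.sum_append, List.sum_map_mul_right, hs1]
    simp only [List.map_id']
    rw [hs2, add_comm, mul_comm]
    exact Nat.div_add_mod m u

lemma Hh_mul {W U T : ℕ} (hU : 0 < U) (hUW : U ≤ W) (h : Hh W T) : Hh (W * U) (2 * T) := by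
  rw [two_mul]
  exact Hh_step hU hUW h h (dvd_mul_right _ _)

lemma exists_large_divisor {n W U : ℕ} (hW : 0 < W) (hU : 0 < U)
    (hp : ∀ p : ℕ, p.Prime → p ∣ U → p ≤ n) :
    ∃ u, u ∣ U ∧ 0 < u ∧ u ≤ W ∧ (u = U ∨ W < u * n) := by
  classical
  have hne : (U.divisors.filter (fun d => d ≤ W)).Nonempty :=
    ⟨1, by simp only [Finset.mem_filter, Nat.mem_divisors]; exact ⟨⟨one_dvd _, hU.ne'⟩, hW⟩⟩
  obtain ⟨u, hu, hmax⟩ := Finset.exists_max_image _ id hne
  simp only [Finset.mem_filter, Nat.mem_divisors, id] at hu hmax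
  obtain ⟨⟨hud, -⟩, huW⟩ := hu
  have hupos : 0 < u := Nat.pos_of_dvd_of_pos hud hU
  refine ⟨u, hud, hupos, huW, ?_⟩
  by_contra hcon
  push Not at hcon
  obtain ⟨hne1, hle⟩ := hcon
  obtain ⟨w, hw⟩ := hud
  have hw1 : w ≠ 1 := by
    rintro rfl
    rw [mul_one] at hw
    exact hne1 hw.symm
  obtain ⟨p, hpp, hpw⟩ := Nat.exists_prime_and_dvd hw1
  have h1 : u * p ∣ U := by rw [hw]; exact mul_dvd_mul_left u hpw
  have h2 : p ≤ n := hp p hpp ((dvd_mul_left p u).trans h1)
  have h3 : u * p ≤ W := (Nat.mul_le_mul_left u h2).trans hle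
  have h4 := hmax (u * p) ⟨⟨h1, hU.ne'⟩, h3⟩
  have h5 : 2 ≤ p := hpp.two_le
  nlinarith

lemma Hh_smooth {n W T : ℕ} (hW : 0 < W) (h : Hh W T) : ∀ L U : ℕ, 0 < U →
    (∀ p : ℕ, p.Prime → p ∣ U → p ≤ n) → U * n ^ L ≤ W ^ (L + 1) → Hh (W * U) ((L + 2) * T) := by
  intro L
  induction L with
  | zero =>
    intro U hU _ hle
    simp only [pow_zero, mul_one, zero_add, pow_one] at hle
    simpa using Hh_mul hU hle h
  | succ L ih =>
    intro U hU hp hle
    rcases le_or_gt U W with hUW | hUW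
    · exact (Hh_mul hU hUW h).mono (Nat.mul_le_mul_right _ (by omega))
    · obtain ⟨u, hud, hupos, huW, hor⟩ := exists_large_divisor hW hU hp
      have hlt : W < u * n := by
        rcases hor with rfl | h1
        · omega
        · exact h1
      obtain ⟨w, rfl⟩ := hud
      have hw : 0 < w := Nat.pos_of_mul_pos_right hU |> fun _ => by
        rcases Nat.eq_zero_or_pos w with h0 | h0
        · subst h0; simp at hU
        · exact h0
      have h2 : w * n ^ L ≤ W ^ (L + 1) := by
        have h3 : W * (w * n ^ L) ≤ W * W ^ (L + 1) := by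
          calc W * (w * n ^ L) ≤ (u * n) * (w * n ^ L) := Nat.mul_le_mul_right _ hlt.le
            _ = u * w * n ^ (L + 1) := by ring
            _ ≤ W ^ (L + 1 + 1) := hle
            _ = W * W ^ (L + 1) := by ring
        exact Nat.le_of_mul_le_mul_left h3 hW
      have h4 := ih w hw (fun p hpp hpw => hp p hpp (hpw.mul_left u)) h2
      have h5 := Hh_step hupos huW h h4 (by
        rw [mul_assoc]; exact dvd_mul_right _ _)
      have h6 : W * w * u = W * (u * w) := by ring
      rw [h6] at h5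
      exact h5.mono (by ring_nf; omega)

/-- eating `K` binary digits at a time -/
lemma consume {G C K v T : ℕ} (hG : 0 < G)
    (cov : ∀ c : ℕ, ∃ l : List ℕ, l.length ≤ C ∧ (∀ d ∈ l, d ∣ 2 ^ K * G) ∧ l.sum ≡ c [MOD 2 ^ K])
    (hC : C * 2 ^ K ≤ 2 ^ v) (h : Hh (2 ^ v * G) T) :
    ∀ s : ℕ, Hh (2 ^ (v + s * K) * G) (s * C + T) := by
  intro s
  induction s with
  | zero => simpa using h
  | succ s ih =>
    intro m hm
    rcases lt_or_ge m (C * 2 ^ K * G) with hlt | hge
    · obtain ⟨l, h1, h2, h3⟩ := h m (hlt.le.trans (Nat.mul_le_mul_right _ hC))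
      refine ⟨l, h1.trans (Nat.le_add_left _ _), ?_, h3⟩
      intro d hd
      exact (h2 d hd).trans (mul_dvd_mul_right (pow_dvd_pow 2 (Nat.le_add_right _ _)) G)
    · obtain ⟨l, h1, h2, h3⟩ := cov m
      have hsum : l.sum ≤ m := by
        have h4 : l.sum ≤ l.length • (2 ^ K * G) := by
          apply List.sum_le_card_nsmul
          intro d hd
          exact Nat.le_of_dvd (by positivity) (h2 d hd)
        rw [smul_eq_mul] at h4
        calc l.sum ≤ l.length * (2 ^ K * G) := h4
          _ ≤ C * (2 ^ K * G) := Nat.mul_le_mul_right _ h1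
          _ = C * 2 ^ K * G := by ring
          _ ≤ m := hge
      obtain ⟨m', hm'⟩ := (Nat.modEq_iff_dvd' hsum).1 h3
      have hm2 : m = l.sum + 2 ^ K * m' := by omega
      have hm'le : m' ≤ 2 ^ (v + s * K) * G := by
        have h5 : 2 ^ K * m' ≤ 2 ^ K * (2 ^ (v + s * K) * G) := by
          calc 2 ^ K * m' ≤ m := by omega
            _ ≤ 2 ^ (v + (s + 1) * K) * G := hm
            _ = 2 ^ K * (2 ^ (v + s * K) * G) := by
              rw [show v + (s + 1) * K = K + (v + s * K) by ring, pow_add]; ring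
        exact Nat.le_of_mul_le_mul_left h5 (by positivity)
      obtain ⟨l', h1', h2', h3'⟩ := ih m' hm'le
      refine ⟨l ++ l'.map (fun d => 2 ^ K * d), ?_, ?_, ?_⟩
      · rw [List.length_append, List.length_map]
        have : (s + 1) * C + T = C + (s * C + T) := by ring
        rw [this]
        exact Nat.add_le_add h1 h1'
      · have h6 : 2 ^ (v + (s + 1) * K) * G = 2 ^ K * (2 ^ (v + s * K) * G) := by
          rw [show v + (s + 1) * K = K + (v + s * K) by ring, pow_add]; ring
        intro d hd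
        rcases List.mem_append.1 hd with hd | hd
        · refine (h2 d hd).trans ?_
          apply mul_dvd_mul_right
          apply pow_dvd_pow
          nlinarith
        · obtain ⟨e, he, rfl⟩ := List.mem_map.1 hd
          rw [h6]
          exact mul_dvd_mul_left _ (h2' e he)
      · rw [List.sum_append, List.sum_map_mul_left]
        simp only [List.map_id']
        rw [h3']
        exact hm2.symm

end Pool.Agent.Hhelper86.HFact
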