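import Pool.Agent.Hhelper86.HFact.Basic

namespace Pool.Agent.Hhelper86.HFact

open Set

/-- a nonzero integer is a power of two times an odd number -/
lemma exists_two_pow_mul_odd (d : ℤ) (hd : d ≠ 0) : ∃ i : ℕ, ∃ u : ℤ, Odd u ∧ d = 2 ^ i * u := by
  obtain ⟨n, m, hm, hn⟩ := Nat.exists_eq_two_pow_mul_odd (n := d.natAbs) (by simpa using hd)
  rcases Int.natAbs_eq d with h | h
  · refine ⟨n, m, by exact_mod_cast hm, ?_⟩
    rw [h, hn]; push_cast; ring
  · refine ⟨n, -m, by simpa using (by exact_mod_cast hm : Odd (m : ℤ)), ?_⟩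
    rw [h, hn]; push_cast; ring

lemma lower_bound (A : Set ℤ) (y : ℤ) (k I : ℕ)
    (hnot : ∀ a ∈ A, ∀ a' ∈ A, ∀ b ∈ A, ∀ b' ∈ A, ∀ i < I, ∀ u : ℤ, Odd u → b - b' = 2 ^ i * u →
      ¬ (2 : ℤ) ^ (k + i) ∣ y * (b - b') - (a - a')) :
    cl A (k + I) * cl A I ≤ cl (lin A 1 y) (k + I) := by
  classical
  obtain ⟨R, hRS, hRc, hRinj, -⟩ := exists_reps A (k + I)
  obtain ⟨R', hRS', hRc', hRinj', -⟩ := exists_reps A I
  rw [← hRc, ← hRc', ← Finset.card_product]
  apply card_le_cl (R ×ˢ R') (fun p => 1 * p.1 + y * p.2)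
  · intro p hp
    rw [Finset.mem_product] at hp
    exact ⟨p.1, hRS hp.1, p.2, hRS' hp.2, rfl⟩
  · rintro ⟨a, b⟩ hp ⟨a', b'⟩ hq hd
    rw [Finset.mem_product] at hp hq
    simp only at hp hq hd
    have hbb : b = b' := by
      apply hRinj' b hp.2 b' hq.2
      by_contra hI
      have hne : b' - b ≠ 0 := by
        intro h0
        rw [h0] at hI
        exact hI (dvd_zero _)
      obtain ⟨i, u, hu, hd2⟩ := exists_two_pow_mul_odd _ hne
      have hi : i < I := by
        by_contra hge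
        push Not at hge
        apply hI
        rw [hd2]
        exact (pow_dvd_pow 2 hge).mul_right _
      apply hnot a (hRS hp.1) a' (hRS hq.1) b' (hRS' hq.2) b (hRS' hp.2) i hi u hu hd2
      have h1 : y * (b' - b) - (a - a') = (1 * a' + y * b') - (1 * a + y * b) := by ring
      rw [h1]
      exact (pow_dvd_pow 2 (by omega)).trans hd
    subst hbb
    have h2 : (2 : ℤ) ^ (k + I) ∣ a' - a := by
      have h3 : a' - a = (1 * a' + y * b) - (1 * a + y * b) := by ring
      rw [h3]; exact hd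
    rw [hRinj a hp.1 a' hq.1 h2]

lemma upper_bound (A A' : Set ℤ) (i k : ℕ) (u v : ℤ)
    (h : ∀ x ∈ A, ∀ y ∈ A, ∀ z ∈ A, x + 2 ^ i * (u * y + v * z) ∈ A') :
    cl A i * cl (lin A u v) k ≤ cl A' (i + k) := by
  apply cl_shift
  rintro a ha x ⟨y, hy, z, hz, rfl⟩
  exact h a ha y hy z hz

/-- Cauchy-Schwarz: the size of an image against the number of collisions -/
lemma card_sq_le {α β : Type*} [DecidableEq β] (s : Finset α) (f : α → β) :
    s.card ^ 2 ≤ (s.image f).card * ((s ×ˢ s).filter (fun p => f p.1 = f p.2)).card := by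
  classical
  have h1 : s.card = ∑ y ∈ s.image f, (s.filter (fun x => f x = y)).card :=
    Finset.card_eq_sum_card_image f s
  have h2 : ((s ×ˢ s).filter (fun p => f p.1 = f p.2)).card
      = ∑ y ∈ s.image f, (s.filter (fun x => f x = y)).card ^ 2 := by
    rw [Finset.card_eq_sum_card_fiberwise (f := fun p : α × α => f p.1) (t := s.image f)]
    · apply Finset.sum_congr rfl
      intro y _
      rw [sq, ← Finset.card_product]
      congr 1
      ext ⟨a, b⟩
      simp only [Finset.mem_filter, Finset.mem_product]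
      constructor
      · rintro ⟨⟨⟨ha, hb⟩, hab⟩, hy⟩
        exact ⟨⟨ha, hy⟩, ⟨hb, hab ▸ hy⟩⟩
      · rintro ⟨⟨ha, hy⟩, ⟨hb, hy'⟩⟩
        exact ⟨⟨⟨ha, hb⟩, hy.trans hy'.symm⟩, hy⟩
    · intro p hp
      simp only [Finset.coe_filter, Finset.mem_product, Set.mem_ofPred_eq] at hp
      simp only [Finset.coe_image, Set.mem_image, Finset.mem_coe]
      exact ⟨p.1, hp.1.1, rfl⟩
  rw [h2]
  nth_rw 1 [h1]
  exact sq_sum_le_card_mul_sum_sq

/-- number of solutions `z < 2^k` of `z d = e` modulo `2^k`, when `2^I` does not divide `d` -/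
lemma card_solutions (k I : ℕ) (hIk : I ≤ k) (d e : ℤ) (hd : ¬ (2 : ℤ) ^ I ∣ d) :
    ((Finset.range (2 ^ k)).filter (fun z : ℕ => (2 : ℤ) ^ k ∣ (z : ℤ) * d - e)).card ≤ 2 ^ I := by
  classical
  have hne : d ≠ 0 := by
    rintro rfl
    exact hd (dvd_zero _)
  obtain ⟨i, u, hu, hd2⟩ := exists_two_pow_mul_odd d hne
  have hi : i < I := by
    by_contra hge
    push Not at hge
    apply hd
    rw [hd2]
    exact (pow_dvd_pow 2 hge).mul_right _
  have hcong : ∀ z w : ℕ, (2 : ℤ) ^ k ∣ (z : ℤ) * d - e → (2 : ℤ) ^ k ∣ (w : ℤ) * d - e →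
      z % 2 ^ (k - I) = w % 2 ^ (k - I) := by
    intro z w hz hw
    have h1 : (2 : ℤ) ^ k ∣ ((z : ℤ) - w) * d := by
      have : ((z : ℤ) - w) * d = (z * d - e) - (w * d - e) := by ring
      rw [this]
      exact dvd_sub hz hw
    rw [hd2] at h1
    have h2 : (2 : ℤ) ^ (k - i) ∣ ((z : ℤ) - w) * u := by
      have h3 : (2 : ℤ) ^ k = 2 ^ i * 2 ^ (k - i) := by
        rw [← pow_add]; congr 1; omega
      rw [h3, show ((z : ℤ) - w) * (2 ^ i * u) = 2 ^ i * (((z : ℤ) - w) * u) by ring] at h1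
      exact (mul_dvd_mul_iff_left (by positivity)).1 h1
    have hco : IsCoprime ((2 : ℤ) ^ (k - i)) u := by
      apply IsCoprime.pow_left
      obtain ⟨m, hm⟩ := hu
      exact ⟨-m, 1, by rw [hm]; ring⟩
    have h4 : (2 : ℤ) ^ (k - i) ∣ (z : ℤ) - w := hco.dvd_of_dvd_mul_right h2
    have h5 : ((2 ^ (k - I) : ℕ) : ℤ) ∣ (w : ℤ) - z := by
      rw [← neg_sub, dvd_neg]
      push_cast
      exact (pow_dvd_pow 2 (by omega)).trans h4
    exact (Nat.modEq_iff_dvd.2 h5)
  have hinj : Set.InjOn (fun z : ℕ => z / 2 ^ (k - I))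
      ((Finset.range (2 ^ k)).filter (fun z : ℕ => (2 : ℤ) ^ k ∣ (z : ℤ) * d - e) : Finset ℕ) := by
    intro z hz w hw hzw
    simp only [Finset.coe_filter, Finset.mem_range, Set.mem_ofPred_eq] at hz hw hzw
    rw [← Nat.div_add_mod z (2 ^ (k - I)), ← Nat.div_add_mod w (2 ^ (k - I)), hzw,
      hcong z w hz.2 hw.2]
  rw [← Finset.card_image_of_injOn hinj]
  calc _ ≤ (Finset.range (2 ^ I)).card := by
        apply Finset.card_le_card
        intro x hx
        simp only [Finset.mem_image, Finset.mem_filter, Finset.mem_range] at hx ⊢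
        obtain ⟨z, ⟨hz, -⟩, rfl⟩ := hx
        apply Nat.div_lt_of_lt_mul
        rw [← pow_add]
        convert hz using 2
        omega
    _ = 2 ^ I := by simp

/-- averaging: some `z` has `A + zA` large -/
lemma exists_good_z (A : Set ℤ) (k I : ℕ) (hIk : I ≤ k) :
    ∃ z : ℕ, min (cl A k * cl A I) (2 ^ (k - I)) ≤ 2 * cl (lin A 1 (z : ℤ)) k := by
  classical
  obtain ⟨R, hRS, hRc, hRinj, -⟩ := exists_reps A k
  obtain ⟨R', hRS', hRc', hRinj', -⟩ := exists_reps A I
  set S := R ×ˢ R' with hS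
  set X := S.card with hX
  have hXc : cl A k * cl A I = X := by rw [hX, hS, Finset.card_product, hRc, hRc']
  set E : ℕ → ℕ := fun z => ((S ×ˢ S).filter
    (fun p : (ℤ × ℤ) × (ℤ × ℤ) => (2 : ℤ) ^ k ∣ (p.2.1 + z * p.2.2) - (p.1.1 + z * p.1.2))).card with hE
  -- total count
  have htot : ∑ z ∈ Finset.range (2 ^ k), E z ≤ 2 ^ k * X + X ^ 2 * 2 ^ I := by
    have h1 : ∑ z ∈ Finset.range (2 ^ k), E z
        = ∑ p ∈ S ×ˢ S, ((Finset.range (2 ^ k)).filter
            (fun z : ℕ => (2 : ℤ) ^ k ∣ (p.2.1 + z * p.2.2) - (p.1.1 + z * p.1.2))).card := by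
      simp only [hE, Finset.card_filter]
      exact Finset.sum_comm
    rw [h1]
    have h2 : ∀ p ∈ S ×ˢ S, ((Finset.range (2 ^ k)).filter
            (fun z : ℕ => (2 : ℤ) ^ k ∣ (p.2.1 + z * p.2.2) - (p.1.1 + z * p.1.2))).card
          ≤ (if p.1 = p.2 then 2 ^ k else 0) + 2 ^ I := by
      rintro ⟨⟨a, b⟩, ⟨a', b'⟩⟩ hp
      simp only [Finset.mem_product, hS] at hp
      obtain ⟨⟨ha, hb⟩, ha', hb'⟩ := hp
      by_cases hbb : b = b'
      · subst hbb
        by_cases haa : a = a'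
        · subst haa
          simp only [if_true]
          calc _ ≤ (Finset.range (2 ^ k)).card := Finset.card_filter_le _ _
            _ ≤ _ := by simp
        · have : ((Finset.range (2 ^ k)).filter
            (fun z : ℕ => (2 : ℤ) ^ k ∣ (a' + z * b) - (a + z * b))).card = 0 := by
            rw [Finset.card_eq_zero, Finset.filter_eq_empty_iff]
            intro z _ hz
            apply haa
            apply hRinj a ha a' ha'
            have : a' - a = (a' + z * b) - (a + z * b) := by ring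
            rw [this]; exact hz
          simp only at this ⊢
          rw [this]
          exact Nat.zero_le _
      · have hnd : ¬ (2 : ℤ) ^ I ∣ b' - b := fun h => hbb (hRinj' b hb b' hb' h)
        have h3 := card_solutions k I hIk (b' - b) (a - a') hnd
        refine le_trans (le_of_eq ?_) (h3.trans (Nat.le_add_left _ _))
        congr 1
        ext z
        simp only [Finset.mem_filter, Finset.mem_range]
        have : (a' + z * b') - (a + z * b) = (z : ℤ) * (b' - b) - (a - a') := by ring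
        rw [this]
    refine (Finset.sum_le_sum h2).trans ?_
    rw [Finset.sum_add_distrib, Finset.sum_const, smul_eq_mul, Finset.card_product, ← hX, ← sq]
    apply Nat.add_le_add_right
    rw [Finset.sum_product]
    have h4 : ∀ x ∈ S, ∑ y ∈ S, (if (x, y).1 = (x, y).2 then 2 ^ k else 0) = 2 ^ k := by
      intro x hx
      simp only
      rw [Finset.sum_ite_eq S x]
      simp [hx]
    rw [Finset.sum_congr rfl h4, Finset.sum_const, smul_eq_mul, mul_comm]
  -- pick z
  obtain ⟨z, -, hz⟩ : ∃ z ∈ Finset.range (2 ^ k), 2 ^ k * E z ≤ 2 ^ k * X + X ^ 2 * 2 ^ I := by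
    by_contra hcon
    push Not at hcon
    have h5 : ∑ z ∈ Finset.range (2 ^ k), (2 ^ k * X + X ^ 2 * 2 ^ I)
        < ∑ z ∈ Finset.range (2 ^ k), 2 ^ k * E z := by
      apply Finset.sum_lt_sum_of_nonempty
      · exact ⟨0, by simp⟩
      · exact hcon
    rw [Finset.sum_const, Finset.card_range, smul_eq_mul, ← Finset.mul_sum] at h5
    have := Nat.lt_of_mul_lt_mul_left h5
    omega
  refine ⟨z, ?_⟩
  have hcs := card_sq_le S (fun p : ℤ × ℤ => (((1 * p.1 + (z : ℤ) * p.2 : ℤ)) : ZMod (2 ^ k)))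
  have hEz : ((S ×ˢ S).filter (fun p : (ℤ × ℤ) × (ℤ × ℤ) =>
      (((1 * p.1.1 + (z : ℤ) * p.1.2 : ℤ)) : ZMod (2 ^ k)) =
        (((1 * p.2.1 + (z : ℤ) * p.2.2 : ℤ)) : ZMod (2 ^ k)))).card = E z := by
    simp only [hE]
    congr 1
    apply Finset.filter_congr
    intro p _
    rw [cast_eq_iff]
    simp only [one_mul]
  rw [hEz] at hcs
  have him : (S.image (fun p : ℤ × ℤ => (((1 * p.1 + (z : ℤ) * p.2 : ℤ)) : ZMod (2 ^ k)))).card
      ≤ cl (lin A 1 (z : ℤ)) k := by
    rw [cl, ← Set.ncard_coe_finset]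
    apply Set.ncard_le_ncard _ (finite_image _ k)
    intro w hw
    simp only [Finset.coe_image, Set.mem_image, Finset.mem_coe] at hw
    obtain ⟨p, hp, rfl⟩ := hw
    rw [hS, Finset.mem_product] at hp
    exact ⟨1 * p.1 + z * p.2, ⟨p.1, hRS hp.1, p.2, hRS' hp.2, rfl⟩, rfl⟩
  set Y := cl (lin A 1 (z : ℤ)) k with hY
  have h6 : X ^ 2 ≤ Y * E z := hcs.trans (Nat.mul_le_mul_right _ him)
  rw [hXc]
  rcases Nat.eq_zero_or_pos X with h0 | hpos
  · rw [h0]; simp
  have h7 : 2 ^ k * X ≤ Y * (2 ^ k + X * 2 ^ I) := by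
    have h8 : X * (2 ^ k * X) ≤ X * (Y * (2 ^ k + X * 2 ^ I)) := by
      calc X * (2 ^ k * X) = 2 ^ k * X ^ 2 := by ring
        _ ≤ 2 ^ k * (Y * E z) := Nat.mul_le_mul_left _ h6
        _ = Y * (2 ^ k * E z) := by ring
        _ ≤ Y * (2 ^ k * X + X ^ 2 * 2 ^ I) := Nat.mul_le_mul_left _ hz
        _ = X * (Y * (2 ^ k + X * 2 ^ I)) := by ring
    exact Nat.le_of_mul_le_mul_left h8 hpos
  have hk : 2 ^ k = 2 ^ (k - I) * 2 ^ I := by rw [← pow_add]; congr 1; omega
  have h2I : 0 < 2 ^ I := by positivity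
  have h2k : 0 < 2 ^ k := by positivity
  rcases le_total X (2 ^ (k - I)) with hle | hle
  · rw [min_eq_left hle]
    have h9 : X * 2 ^ I ≤ 2 ^ k := by rw [hk]; exact Nat.mul_le_mul_right _ hle
    have h10 : 2 ^ k * X ≤ 2 ^ k * (2 * Y) := by
      calc 2 ^ k * X ≤ Y * (2 ^ k + X * 2 ^ I) := h7
        _ ≤ Y * (2 ^ k + 2 ^ k) := Nat.mul_le_mul_left _ (by omega)
        _ = 2 ^ k * (2 * Y) := by ring
    exact Nat.le_of_mul_le_mul_left h10 h2k
  · rw [min_eq_right hle]
    have h9 : 2 ^ k ≤ X * 2 ^ I := by rw [hk]; exact Nat.mul_le_mul_right _ hle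
    have h10 : (X * 2 ^ I) * 2 ^ (k - I) ≤ (X * 2 ^ I) * (2 * Y) := by
      calc (X * 2 ^ I) * 2 ^ (k - I) = 2 ^ k * X := by rw [hk]; ring
        _ ≤ Y * (2 ^ k + X * 2 ^ I) := h7
        _ ≤ Y * (X * 2 ^ I + X * 2 ^ I) := Nat.mul_le_mul_left _ (by omega)
        _ = (X * 2 ^ I) * (2 * Y) := by ring
    exact Nat.le_of_mul_le_mul_left h10 (Nat.mul_pos hpos h2I)

/-- **Lemma Q**: the finite combinatorial core of the sum-product argument. -/
theorem lemmaQ (A A' : Set ℤ) (k I : ℕ) (hIk : I ≤ k)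
    (h1 : ∀ a ∈ A, ∀ a' ∈ A, ∀ b ∈ A, ∀ b' ∈ A, ∀ c : ℤ, (c = 0 ∨ c = 1) →
      ∀ x ∈ A, ∀ y ∈ A, ∀ z ∈ A, x + ((b - b') * y + (2 * (a - a') + c * (b - b')) * z) ∈ A')
    (h2 : ∀ a ∈ A, ∀ a' ∈ A, ∀ b ∈ A, ∀ b' ∈ A,
      ∀ x ∈ A, ∀ y ∈ A, ∀ z ∈ A, x + ((b - b') * y + (a - a') * z) ∈ A')
    (H1 : ∀ i < I, cl A' (k + I + i) < cl A i * (cl A (k + I) * cl A I))
    (H2 : 2 ≤ cl A I) :
    ∃ i < I, cl A i * min (cl A k * cl A I) (2 ^ (k - I)) ≤ 2 * cl A' (k + i) := by
  classical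
  set Q : ℤ → Prop := fun x => ∃ a ∈ A, ∃ a' ∈ A, ∃ b ∈ A, ∃ b' ∈ A, ∃ i < I, ∃ u : ℤ, Odd u ∧
    b - b' = 2 ^ i * u ∧ (2 : ℤ) ^ (k + i) ∣ x * (b - b') - (a - a') with hQ
  -- `Q` depends on `x` modulo `2^k` only
  have hQmod : ∀ x y : ℤ, (2 : ℤ) ^ k ∣ y - x → Q x → Q y := by
    rintro x y hxy ⟨a, ha, a', ha', b, hb, b', hb', i, hi, u, hu, hbu, hd⟩
    refine ⟨a, ha, a', ha', b, hb, b', hb', i, hi, u, hu, hbu, ?_⟩
    have : y * (b - b') - (a - a') = (x * (b - b') - (a - a')) + (y - x) * (2 ^ i * u) := by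
      rw [← hbu]; ring
    rw [this]
    apply dvd_add hd
    rw [pow_add, ← mul_assoc]
    exact (mul_dvd_mul hxy (dvd_refl _)).mul_right _
  have hQ0 : Q 0 := by
    obtain ⟨R, hRS, hRc, hRinj, -⟩ := exists_reps A I
    have hcard : 1 < R.card := by rw [hRc]; omega
    obtain ⟨b, hb, b', hb', hne⟩ := Finset.one_lt_card.1 hcard
    have hnd : ¬ (2 : ℤ) ^ I ∣ b' - b := fun h => hne (hRinj b hb b' hb' h)
    have hne0 : b' - b ≠ 0 := by
      intro h0; rw [h0] at hnd; exact hnd (dvd_zero _)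
    obtain ⟨i, u, hu, hd⟩ := exists_two_pow_mul_odd _ hne0
    have hi : i < I := by
      by_contra hge
      push Not at hge
      apply hnd
      rw [hd]
      exact (pow_dvd_pow 2 hge).mul_right _
    exact ⟨b, hRS hb, b, hRS hb, b', hRS hb', b, hRS hb, i, hi, u, hu, hd, by simp⟩
  -- inverse of odd numbers modulo powers of two
  have hinv : ∀ u v : ℤ, ∀ l : ℕ, Odd u → ∃ y : ℤ, (2 : ℤ) ^ l ∣ u * y - v := by
    intro u v l hu
    have hco : IsCoprime u ((2 : ℤ) ^ l) := by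
      apply IsCoprime.pow_right
      obtain ⟨m, hm⟩ := hu
      exact ⟨1, -m, by rw [hm]; ring⟩
    obtain ⟨s, t, hst⟩ := hco
    refine ⟨s * v, ?_⟩
    have : u * (s * v) - v = (s * u - 1) * v := by ring
    rw [this, show s * u - 1 = - (t * 2 ^ l) by linarith]
    exact (dvd_neg.2 (dvd_mul_left _ _)).mul_right _
  -- closure
  have hstep : ∀ x : ℤ, ∀ c : ℤ, (c = 0 ∨ c = 1) → Q x → Q (2 * x + c) := by
    intro x c hc hx
    by_contra hnQ
    obtain ⟨a, ha, a', ha', b, hb, b', hb', i, hi, u, hu, hbu, hd⟩ := hx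
    -- a - a' = 2^i w
    have hdiv : (2 : ℤ) ^ i ∣ a - a' := by
      have h3 : a - a' = x * (2 ^ i * u) - (x * (b - b') - (a - a')) := by rw [← hbu]; ring
      rw [h3]
      apply dvd_sub
      · exact (dvd_mul_right _ _).mul_left _
      · exact (pow_dvd_pow 2 (by omega)).trans hd
    obtain ⟨w, hw⟩ := hdiv
    have hxw : (2 : ℤ) ^ k ∣ x * u - w := by
      rw [hbu, hw] at hd
      have h4 : x * (2 ^ i * u) - 2 ^ i * w = 2 ^ i * (x * u - w) := by ring
      rw [h4, add_comm, pow_add] at hd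
      exact (mul_dvd_mul_iff_left (by positivity)).1 hd
    obtain ⟨y, hy⟩ := hinv u (2 * w + c * u) (k + I) hu
    -- y ≡ 2x + c mod 2^k
    have hyx : (2 : ℤ) ^ k ∣ (2 * x + c) - y := by
      have hco : IsCoprime ((2 : ℤ) ^ k) u := by
        apply IsCoprime.pow_left
        obtain ⟨m, hm⟩ := hu
        exact ⟨-m, 1, by rw [hm]; ring⟩
      apply hco.dvd_of_dvd_mul_right
      have h5 : ((2 * x + c) - y) * u = 2 * (x * u - w) - (u * y - (2 * w + c * u)) := by ring
      rw [h5]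
      exact dvd_sub (hxw.mul_left 2) ((pow_dvd_pow 2 (by omega)).trans hy)
    have hnQy : ¬ Q y := fun h => hnQ (hQmod y _ hyx h)
    have hlow := lower_bound A y k I (by
      intro a ha a' ha' b hb b' hb' i hi u hu hbu hd
      exact hnQy ⟨a, ha, a', ha', b, hb, b', hb', i, hi, u, hu, hbu, hd⟩)
    have hup := upper_bound A A' i (k + I) u (2 * w + c * u) (by
      intro x hx y hy z hz
      have h6 := h1 a ha a' ha' b hb b' hb' c hc x hx y hy z hz
      convert h6 using 1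
      rw [hbu, hw]; ring)
    have hlin := cl_lin_le A (k + I) y u (2 * w + c * u) hu hy
    have h7 : cl A i * (cl A (k + I) * cl A I) ≤ cl A' (i + (k + I)) :=
      (Nat.mul_le_mul_left _ (hlow.trans hlin)).trans hup
    have h8 := H1 i hi
    rw [show k + I + i = i + (k + I) by ring] at h8
    omega
  have hall : ∀ n : ℕ, Q (n : ℤ) := by
    intro n
    induction n using Nat.strong_induction_on with
    | _ n ih =>
      rcases Nat.eq_zero_or_pos n with h0 | hpos
      · subst h0; simpa using hQ0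
      · have h9 := ih (n / 2) (by omega)
        rcases Nat.mod_two_eq_zero_or_one n with hm | hm
        · have h10 := hstep _ 0 (Or.inl rfl) h9
          convert h10 using 1
          omega
        · have h10 := hstep _ 1 (Or.inr rfl) h9
          convert h10 using 1
          omega
  obtain ⟨z, hz⟩ := exists_good_z A k I hIk
  obtain ⟨a, ha, a', ha', b, hb, b', hb', i, hi, u, hu, hbu, hd⟩ := hall z
  have hdiv : (2 : ℤ) ^ i ∣ a - a' := by
    have h3 : a - a' = z * (2 ^ i * u) - (z * (b - b') - (a - a')) := by rw [← hbu]; ring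
    rw [h3]
    apply dvd_sub
    · exact (dvd_mul_right _ _).mul_left _
    · exact (pow_dvd_pow 2 (by omega)).trans hd
  obtain ⟨w, hw⟩ := hdiv
  have hxw : (2 : ℤ) ^ k ∣ u * z - w := by
    rw [hbu, hw] at hd
    have h4 : z * (2 ^ i * u) - 2 ^ i * w = 2 ^ i * (u * z - w) := by ring
    rw [h4, add_comm, pow_add] at hd
    exact (mul_dvd_mul_iff_left (by positivity)).1 hd
  have hup := upper_bound A A' i k u w (by
      intro x hx y hy z hz
      have h6 := h2 a ha a' ha' b hb b' hb' x hx y hy z hz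
      convert h6 using 1
      rw [hbu, hw]; ring)
  have hlin := cl_lin_le A k z u w hu hxw
  refine ⟨i, hi, ?_⟩
  calc cl A i * min (cl A k * cl A I) (2 ^ (k - I)) ≤ cl A i * (2 * cl (lin A 1 (z : ℤ)) k) :=
        Nat.mul_le_mul_left _ hz
    _ ≤ cl A i * (2 * cl (lin A u w) k) := by gcongr
    _ = 2 * (cl A i * cl (lin A u w) k) := by ring
    _ ≤ 2 * cl A' (i + k) := by gcongr
    _ = 2 * cl A' (k + i) := by rw [add_comm]

end Pool.Agent.Hhelper86.HFact
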