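import Pool.Agent.Hhelper86.HFact.CoverFull
import Pool.Agent.Hhelper86.HFact.Dens
import Pool.Agent.Hhelper86.HFact.Hh

namespace Pool.Agent.Hhelper86.HFact

open Filter Finset

/-- the model number `2^v · (∏_{p ≤ v^{1-γ}} p)^D` -/
noncomputable def MM (γ : ℝ) (D v : ℕ) : ℕ := 2 ^ v * primorial ⌊(v : ℝ) ^ (1 - γ)⌋₊ ^ D

set_option maxHeartbeats 1000000 in
theorem level (γ : ℝ) (hγ : 0 < γ) (hγ1 : γ ≤ 1 / 4) :
    ∃ D : ℕ, ∃ A : ℝ, 1 ≤ A ∧ ∀ v : ℕ, 1 ≤ v →
      ∃ T : ℕ, Hh (MM γ D v) T ∧ (T : ℝ) ≤ A * (v : ℝ) ^ (3 * γ) := by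
  obtain ⟨N, m, K0, hm, hcover⟩ := cover (γ / 8) (by positivity) (by linarith)
  have hev := (dens γ hγ hγ1).and ((floor_ge (1 - 2 * γ) (by linarith)).and
    ((floor_ge (1 - γ / 2) (by linarith)).and
    ((natlog_dom ((N : ℝ) + 4 * m + K0) (γ / 2) (by positivity)).and
    ((pow_dom (4 + 4 * (N : ℝ)) (1 - γ) (1 - γ / 2) (by linarith)).and
    ((natlog_dom 1 (1 - γ) (by linarith)).and
    ((pow_dom 4 (5 / 2 * γ) (3 * γ) (by linarith)).and
    ((pow_dom 4 (3 * γ - 3 / 2 * γ ^ 2) (3 * γ) (by have := pow_pos hγ 2; linarith)).and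
    ((pow_dom 2 (1 - γ / 2) 1 (by linarith)).and (eventually_ge_atTop 2)))))))))
  obtain ⟨V0, hV0⟩ := eventually_atTop.1 hev
  refine ⟨N, 1 + ∑ v ∈ range V0, (MM γ N v : ℝ), ?_, ?_⟩
  · have : (0 : ℝ) ≤ ∑ v ∈ range V0, (MM γ N v : ℝ) := by positivity
    linarith
  set A : ℝ := 1 + ∑ v ∈ range V0, (MM γ N v : ℝ) with hA
  have hA1 : 1 ≤ A := by
    have : (0 : ℝ) ≤ ∑ v ∈ range V0, (MM γ N v : ℝ) := by positivity
    linarith
  intro v
  induction v using Nat.strong_induction_on with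
  | _ v ih =>
    intro hv1
    have hvR : (1 : ℝ) ≤ v := by exact_mod_cast hv1
    have hvpos : (0 : ℝ) < v := by linarith
    rcases lt_or_ge v V0 with hlt | hge
    · refine ⟨MM γ N v, Hh_trivial _, ?_⟩
      have h1 : (MM γ N v : ℝ) ≤ ∑ v ∈ range V0, (MM γ N v : ℝ) :=
        Finset.single_le_sum (f := fun v => (MM γ N v : ℝ)) (fun i _ => Nat.cast_nonneg _)
          (Finset.mem_range.2 hlt)
      have h2 : (1 : ℝ) ≤ (v : ℝ) ^ (3 * γ) := Real.one_le_rpow hvR (by positivity)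
      have h3 : (MM γ N v : ℝ) ≤ A := by rw [hA]; linarith
      nlinarith
    · obtain ⟨hdens, hK, hv', hC, hE2, haa, hE4, hE5, hE6, hv2⟩ := hV0 v hge
      set y : ℕ := ⌊(v : ℝ) ^ (1 - γ)⌋₊ with hy
      set K : ℕ := ⌊(v : ℝ) ^ (1 - 2 * γ)⌋₊ with hKdef
      set v' : ℕ := ⌊(v : ℝ) ^ (1 - γ / 2)⌋₊ with hv'def
      set a : ℕ := Nat.log 2 v + 1 with ha
      set C : ℕ := N * (Nat.log 2 K + 1) + (4 * a * m + K0) with hCdef
      have hKle : (K : ℝ) ≤ (v : ℝ) ^ (1 - 2 * γ) := Nat.floor_le (by positivity)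
      have hyle : (y : ℝ) ≤ (v : ℝ) ^ (1 - γ) := Nat.floor_le (by positivity)
      have hv'le : (v' : ℝ) ≤ (v : ℝ) ^ (1 - γ / 2) := Nat.floor_le (by positivity)
      have hKpos : 0 < K := by
        have : (0 : ℝ) < K := lt_of_lt_of_le (by positivity) hK
        exact_mod_cast this
      have hKv : K ≤ v := by
        have : (K : ℝ) ≤ v := by
          refine hKle.trans ?_
          calc (v : ℝ) ^ (1 - 2 * γ) ≤ (v : ℝ) ^ (1 : ℝ) :=
                Real.rpow_le_rpow_of_exponent_le hvR (by linarith)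
            _ = v := Real.rpow_one _
        exact_mod_cast this
      have hpow1 : (v : ℝ) ^ (1 - 2 * γ) ≤ (v : ℝ) ^ (1 - γ) :=
        Real.rpow_le_rpow_of_exponent_le hvR (by linarith)
      have haR : ((a : ℕ) : ℝ) = ((Nat.log 2 v : ℕ) : ℝ) + 1 := by rw [ha]; push_cast; ring
      have hapos : (1 : ℝ) ≤ a := by rw [haR]; linarith [Nat.cast_nonneg (α := ℝ) (Nat.log 2 v)]
      have hCle : (C : ℝ) ≤ (v : ℝ) ^ (γ / 2) := by
        refine le_trans ?_ hC
        rw [← haR, hCdef]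
        have h1 : Nat.log 2 K + 1 ≤ a := by
          rw [ha]; exact Nat.succ_le_succ (Nat.log_mono_right hKv)
        have h2 : ((Nat.log 2 K + 1 : ℕ) : ℝ) ≤ a := by exact_mod_cast h1
        push_cast at h2 ⊢
        have hN : (0 : ℝ) ≤ N := Nat.cast_nonneg _
        have hK0 : (0 : ℝ) ≤ K0 := Nat.cast_nonneg _
        nlinarith
      have hCv : C ≤ 2 ^ a := by
        have h1 : (C : ℝ) ≤ v := by
          refine hCle.trans ?_
          calc (v : ℝ) ^ (γ / 2) ≤ (v : ℝ) ^ (1 : ℝ) :=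
                Real.rpow_le_rpow_of_exponent_le hvR (by linarith)
            _ = v := Real.rpow_one _
        have h2 : C ≤ v := by exact_mod_cast h1
        exact h2.trans (Nat.lt_pow_succ_log_self (by norm_num) v).le
      have hE2' : (K : ℝ) + 2 * y * N ≤ v' := by
        have hN : (0 : ℝ) ≤ N := Nat.cast_nonneg _
        nlinarith
      have hKyN : K + 2 * y * N ≤ v' := by exact_mod_cast hE2'
      have haK' : (a : ℝ) + K ≤ v' := by
        have hN : (0 : ℝ) ≤ N := Nat.cast_nonneg _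
        rw [← haR, one_mul] at haa
        have : (0 : ℝ) ≤ (v : ℝ) ^ (1 - γ) := by positivity
        nlinarith
      have haK : a + K ≤ v' := by exact_mod_cast haK'
      have hv'v : v' < v := by
        have h1 : (v' : ℝ) < v := by
          rw [Real.rpow_one] at hE6
          linarith
        exact_mod_cast h1
      -- covering
      have cov : ∀ c : ℕ, ∃ l : List ℕ, l.length ≤ C ∧ (∀ d ∈ l, d ∣ 2 ^ K * primorial y ^ N) ∧
          l.sum ≡ c [MOD 2 ^ K] := by
        intro c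
        obtain ⟨x, hx, hxd⟩ := hcover {b | b ∣ primorial y} (4 * a * m + K0) K (Nat.le_add_left _ _) (by
          intro k hk hkK
          apply hdens k
          · have h1 : 4 * a * m ≤ m * k := (Nat.le_add_right _ _).trans hk
            have h2 : m * (4 * a) ≤ m * k := by rw [mul_comm m (4 * a)]; exact h1
            exact Nat.le_of_mul_le_mul_left h2 hm
          · exact le_trans (by exact_mod_cast hkK) hKle) K le_rfl (c : ℤ)
        exact to_divisors (primorial y) N C K x hx c hxd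
      -- induction hypothesis
      obtain ⟨T', hT', hT'le⟩ := ih v' hv'v (by omega)
      set s : ℕ := (v - v') / K with hs
      have hsK : s * K ≤ v - v' := Nat.div_mul_le_self _ _
      have hsK2 : v - v' < (s + 1) * K := by
        rw [mul_comm]; exact Nat.lt_mul_div_succ _ hKpos
      set v'' : ℕ := v - s * K with hv''
      have hv''1 : v' ≤ v'' := by omega
      have hv''2 : v'' ≤ v' + K := by
        have : (s + 1) * K = s * K + K := by ring
        omega
      have hv''3 : v'' + s * K = v := by omega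
      set y' : ℕ := ⌊(v' : ℝ) ^ (1 - γ)⌋₊ with hy'
      have hy'y : y' ≤ y := by
        apply Nat.floor_le_floor
        apply Real.rpow_le_rpow (by positivity) (by exact_mod_cast hv'v.le) (by linarith)
      obtain ⟨w, hw⟩ := primorial_dvd_primorial hy'y
      have hwpos : 0 < w := by
        rcases Nat.eq_zero_or_pos w with h0 | h0
        · rw [h0, mul_zero] at hw
          exact absurd hw (primorial_pos y).ne'
        · exact h0
      have hwle : w ≤ 4 ^ y := by
        refine le_trans ?_ (primorial_le_four_pow y)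
        rw [hw]
        exact Nat.le_mul_of_pos_left w (primorial_pos y')
      have hU : 2 ^ (v'' - v') * w ^ N ≤ MM γ N v' := by
        calc 2 ^ (v'' - v') * w ^ N ≤ 2 ^ K * (4 ^ y) ^ N := by
              apply Nat.mul_le_mul
              · exact Nat.pow_le_pow_right (by norm_num) (by omega)
              · exact Nat.pow_le_pow_left hwle N
          _ = 2 ^ (K + 2 * y * N) := by
              rw [pow_add, show (4 : ℕ) = 2 ^ 2 by norm_num, ← pow_mul, ← pow_mul]
              congr 2; ring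
          _ ≤ 2 ^ v' := Nat.pow_le_pow_right (by norm_num) hKyN
          _ ≤ MM γ N v' := Nat.le_mul_of_pos_right _ (pow_pos (primorial_pos _) _)
      have h1 := Hh_mul (by positivity) hU hT'
      have h2 : MM γ N v' * (2 ^ (v'' - v') * w ^ N) = 2 ^ v'' * primorial y ^ N := by
        unfold MM
        rw [← hy', hw, mul_pow]
        have : 2 ^ v'' = 2 ^ v' * 2 ^ (v'' - v') := by rw [← pow_add]; congr 1; omega
        rw [this]; ring
      rw [h2] at h1
      have h3 := consume (pow_pos (primorial_pos y) N) cov (by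
        calc C * 2 ^ K ≤ 2 ^ a * 2 ^ K := Nat.mul_le_mul_right _ hCv
          _ = 2 ^ (a + K) := (pow_add 2 a K).symm
          _ ≤ 2 ^ v'' := Nat.pow_le_pow_right (by norm_num) (by omega)) h1 s
      rw [hv''3] at h3
      refine ⟨s * C + 2 * T', h3, ?_⟩
      -- final numerical estimate
      have hs1 : (s : ℝ) ≤ 2 * (v : ℝ) ^ (2 * γ) := by
        have h4 : (s : ℝ) * K ≤ v := by
          have : s * K ≤ v := hsK.trans (Nat.sub_le _ _)
          exact_mod_cast this
        have h5 : (s : ℝ) * ((v : ℝ) ^ (1 - 2 * γ) / 2) ≤ v := by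
          refine le_trans ?_ h4
          gcongr
        have h6 : (v : ℝ) = (v : ℝ) ^ (1 - 2 * γ) * (v : ℝ) ^ (2 * γ) := by
          rw [← Real.rpow_add hvpos]; ring_nf; exact (Real.rpow_one _).symm
        have h7 : (0 : ℝ) < (v : ℝ) ^ (1 - 2 * γ) := by positivity
        by_contra hcon
        push Not at hcon
        have h8 : (v : ℝ) ^ (1 - 2 * γ) / 2 * (2 * (v : ℝ) ^ (2 * γ))
            < (v : ℝ) ^ (1 - 2 * γ) / 2 * s := by
          apply mul_lt_mul_of_pos_left hcon (by positivity)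
        have h9 : (v : ℝ) ^ (1 - 2 * γ) / 2 * (2 * (v : ℝ) ^ (2 * γ)) = v := by
          calc (v : ℝ) ^ (1 - 2 * γ) / 2 * (2 * (v : ℝ) ^ (2 * γ))
              = (v : ℝ) ^ (1 - 2 * γ) * (v : ℝ) ^ (2 * γ) := by ring
            _ = v := h6.symm
        linarith
      have hsC : (s : ℝ) * C ≤ (v : ℝ) ^ (3 * γ) / 2 := by
        calc (s : ℝ) * C ≤ (2 * (v : ℝ) ^ (2 * γ)) * (v : ℝ) ^ (γ / 2) := by gcongr
          _ = 2 * (v : ℝ) ^ (5 / 2 * γ) := by
            rw [mul_assoc, ← Real.rpow_add hvpos]; ring_nf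
          _ ≤ (v : ℝ) ^ (3 * γ) / 2 := by linarith
      have hT2 : 2 * (T' : ℝ) ≤ A * (v : ℝ) ^ (3 * γ) / 2 := by
        have h4 : (v' : ℝ) ^ (3 * γ) ≤ (v : ℝ) ^ (3 * γ - 3 / 2 * γ ^ 2) := by
          calc (v' : ℝ) ^ (3 * γ) ≤ ((v : ℝ) ^ (1 - γ / 2)) ^ (3 * γ) := by
                apply Real.rpow_le_rpow (by positivity) hv'le (by positivity)
            _ = (v : ℝ) ^ ((1 - γ / 2) * (3 * γ)) := by rw [← Real.rpow_mul hvpos.le]
            _ = (v : ℝ) ^ (3 * γ - 3 / 2 * γ ^ 2) := by ring_nf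
        have h5 : A * (v' : ℝ) ^ (3 * γ) ≤ A * (v : ℝ) ^ (3 * γ - 3 / 2 * γ ^ 2) := by gcongr
        have h6 : A * (4 * (v : ℝ) ^ (3 * γ - 3 / 2 * γ ^ 2)) ≤ A * (v : ℝ) ^ (3 * γ) := by gcongr
        linarith
      push_cast
      have h10 : (0 : ℝ) < (v : ℝ) ^ (3 * γ) := by positivity
      nlinarith

end Pool.Agent.Hhelper86.HFact
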